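import Pool.Agent.Helper66.EL.Group

/-!
# Elimination in the group ring of the elementary group
-/

namespace Pool.Agent.Helper66.EL

open MonoidAlgebra

variable {P : Type*} [Field P] {R : Type*} [Ring R] {Λ : Type*}

/-- The group ring of the additive group of the free module. -/
abbrev CR (P : Type*) [Field P] (R : Type*) [Ring R] (Λ : Type*) :=
  MonoidAlgebra P (Multiplicative (Λ →₀ R))

/-- The element `[w]` of the group ring of the additive group of the free module. -/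
noncomputable def mon (P : Type*) [Field P] (w : Λ →₀ R) : CR P R Λ :=
  of P _ (Multiplicative.ofAdd w)

theorem mon_add (w w' : Λ →₀ R) : mon P (w + w') = mon P w * mon P w' := by
  rw [mon, ofAdd_add, map_mul]; rfl

theorem mon_zero : mon P (0 : Λ →₀ R) = 1 := by
  rw [mon, ofAdd_zero, map_one]

/-- The homomorphism of group rings given by `w ↦ (v ↦ v + v_b w)`. -/
noncomputable def iota (P : Type*) [Field P] {R : Type*} [Ring R] {Λ : Type*} (b : Λ) :
    CR P R Λ →ₐ[P] MonoidAlgebra P (elemGroup R Λ) :=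
  MonoidAlgebra.lift P _ _ ((of P _).comp (Xh b))

theorem iota_mon (b : Λ) (w : Λ →₀ R) : iota P b (mon P w) = of P _ (x b w) := by
  rw [iota, mon, lift_of]; rfl

theorem iota_comm (b : Λ) (z : CR P R Λ) (w : Λ →₀ R) :
    iota P b z * of P _ (x b w) = of P _ (x b w) * iota P b z := by
  rw [← iota_mon, ← map_mul, ← map_mul, mul_comm]

theorem conj_prod {b : Λ} {h : elemGroup R Λ} (hh : Fx b (h : (Λ →₀ R) ≃ₗ[R] (Λ →₀ R)))
    {ι : Type*} (T : Finset ι) (w : ι → Λ →₀ R) :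
    of P _ h * iota P b (∏ k ∈ T, (mon P (w k) - 1)) * of P _ h⁻¹ =
      iota P b (∏ k ∈ T, (mon P ((h : (Λ →₀ R) ≃ₗ[R] (Λ →₀ R)) (w k)) - 1)) := by
  classical
  have hinv : of P (elemGroup R Λ) h⁻¹ * of P _ h = 1 := by
    rw [← map_mul, inv_mul_cancel, map_one]
  have hinv' : of P (elemGroup R Λ) h * of P _ h⁻¹ = 1 := by
    rw [← map_mul, mul_inv_cancel, map_one]
  induction T using Finset.induction_on with
  | empty => simp only [Finset.prod_empty, map_one, mul_one, hinv']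
  | insert a T ha ih =>
    rw [Finset.prod_insert ha, Finset.prod_insert ha, map_mul, map_mul, ← ih]
    have h1 : iota P b (mon P ((h : (Λ →₀ R) ≃ₗ[R] (Λ →₀ R)) (w a)) - 1) =
        of P _ h * iota P b (mon P (w a) - 1) * of P _ h⁻¹ := by
      rw [map_sub, map_sub, iota_mon, iota_mon, ← conj_x hh, map_mul, map_mul, map_one,
        mul_sub, sub_mul, mul_one, hinv']
    rw [h1]
    calc of P _ h * (iota P b (mon P (w a) - 1) * iota P b (∏ k ∈ T, (mon P (w k) - 1))) *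
          of P _ h⁻¹ =
        of P _ h * iota P b (mon P (w a) - 1) * 1 *
          (iota P b (∏ k ∈ T, (mon P (w k) - 1)) * of P _ h⁻¹) := by
          simp only [mul_assoc, mul_one]
      _ = of P _ h * iota P b (mon P (w a) - 1) * (of P _ h⁻¹ * of P _ h) *
          (iota P b (∏ k ∈ T, (mon P (w k) - 1)) * of P _ h⁻¹) := by rw [hinv]
      _ = _ := by simp only [mul_assoc]

/-- The elimination. -/
theorem elimE {I : AddSubgroup (MonoidAlgebra P (elemGroup R Λ))}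
    (hl : ∀ r : MonoidAlgebra P (elemGroup R Λ), ∀ i ∈ I, r * i ∈ I)
    (hr : ∀ r : MonoidAlgebra P (elemGroup R Λ), ∀ i ∈ I, i * r ∈ I)
    (b : Λ) (S : Finset (elemGroup R Λ))
    (hS : ∀ g ∈ S, Fx b ((g : elemGroup R Λ) : (Λ →₀ R) ≃ₗ[R] (Λ →₀ R)))
    (c : elemGroup R Λ → P)
    (hI : ∑ g ∈ S, of P _ g * iota P b (c g • (1 : CR P R Λ)) ∈ I)
    (v : elemGroup R Λ → Λ →₀ R) (T : Finset (elemGroup R Λ)) (hT : T ⊆ S) :
    ∑ g ∈ S, of P _ g * iota P b (c g • ∏ k ∈ T,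
      (mon P (((k⁻¹ : elemGroup R Λ) : (Λ →₀ R) ≃ₗ[R] (Λ →₀ R)) (v k) -
        ((g⁻¹ : elemGroup R Λ) : (Λ →₀ R) ≃ₗ[R] (Λ →₀ R)) (v k)) - 1)) ∈ I := by
  classical
  induction T using Finset.induction_on with
  | empty => simpa using hI
  | insert k T hk ih =>
    have ih' := ih (fun x hx => hT (Finset.mem_insert_of_mem hx))
    set Q : elemGroup R Λ → CR P R Λ := fun g => c g • ∏ k ∈ T,
      (mon P (((k⁻¹ : elemGroup R Λ) : (Λ →₀ R) ≃ₗ[R] (Λ →₀ R)) (v k) -
        ((g⁻¹ : elemGroup R Λ) : (Λ →₀ R) ≃ₗ[R] (Λ →₀ R)) (v k)) - 1) with hQ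
    set u : Λ →₀ R := v k with hu
    set ku : Λ →₀ R := ((k⁻¹ : elemGroup R Λ) : (Λ →₀ R) ≃ₗ[R] (Λ →₀ R)) u with hku
    have h1 : ∑ g ∈ S, of P _ g * iota P b (c g • ∏ k ∈ insert k T,
        (mon P (((k⁻¹ : elemGroup R Λ) : (Λ →₀ R) ≃ₗ[R] (Λ →₀ R)) (v k) -
          ((g⁻¹ : elemGroup R Λ) : (Λ →₀ R) ≃ₗ[R] (Λ →₀ R)) (v k)) - 1)) =
        of P _ (x b u)⁻¹ * (∑ g ∈ S, of P _ g * iota P b (Q g)) * of P _ (x b u) *
          of P _ (x b (ku - u)) - ∑ g ∈ S, of P _ g * iota P b (Q g) := by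
      rw [Finset.mul_sum, Finset.sum_mul, Finset.sum_mul, ← Finset.sum_sub_distrib]
      refine Finset.sum_congr rfl fun g hg => ?_
      rw [Finset.prod_insert hk, ← mul_smul_comm]
      rw [show c g • ∏ k ∈ T, (mon P (((k⁻¹ : elemGroup R Λ) : (Λ →₀ R) ≃ₗ[R] (Λ →₀ R)) (v k) -
          ((g⁻¹ : elemGroup R Λ) : (Λ →₀ R) ≃ₗ[R] (Λ →₀ R)) (v k)) - 1) = Q g from rfl]
      rw [← hu, ← hku]
      have e1 : of P (elemGroup R Λ) (x b u)⁻¹ * (of P _ g * iota P b (Q g)) * of P _ (x b u) *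
          of P _ (x b (ku - u)) = of P _ ((x b u)⁻¹ * g * x b u * x b (ku - u)) *
            iota P b (Q g) := by
        rw [map_mul, map_mul, map_mul]
        have e2 := iota_comm (P := P) b (Q g) u
        have e3 := iota_comm (P := P) b (Q g) (ku - u)
        calc of P _ (x b u)⁻¹ * (of P _ g * iota P b (Q g)) * of P _ (x b u) *
              of P _ (x b (ku - u)) = of P _ (x b u)⁻¹ * of P _ g *
              (iota P b (Q g) * of P _ (x b u)) * of P _ (x b (ku - u)) := by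
                simp only [mul_assoc]
          _ = of P _ (x b u)⁻¹ * of P _ g * of P _ (x b u) *
              (iota P b (Q g) * of P _ (x b (ku - u))) := by rw [e2]; simp only [mul_assoc]
          _ = _ := by rw [e3]; simp only [mul_assoc]
      have e4 : (x b u)⁻¹ * g * x b u * x b (ku - u) = g * x b (ku -
          ((g⁻¹ : elemGroup R Λ) : (Λ →₀ R) ≃ₗ[R] (Λ →₀ R)) u) := by
        rw [conj_x' (hS g hg), mul_assoc, ← x_add]
        congr 2
        abel
      rw [e1, e4, map_mul (iota P b), map_sub (iota P b), iota_mon, map_one,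
        map_mul (of P (elemGroup R Λ)) g, sub_mul, one_mul, mul_sub, mul_assoc]
    rw [h1]
    exact I.sub_mem (hr _ _ (hr _ _ (hl _ _ ih'))) ih'

/-- The ideal of the group ring of the additive group. -/
noncomputable def JI (I : AddSubgroup (MonoidAlgebra P (elemGroup R Λ)))
    (hl : ∀ r : MonoidAlgebra P (elemGroup R Λ), ∀ i ∈ I, r * i ∈ I) (b : Λ) :
    Ideal (CR P R Λ) where
  carrier := {z | iota P b z ∈ I}
  add_mem' := fun {u v} hu hv => by
    show iota P b (u + v) ∈ I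
    rw [map_add]; exact I.add_mem hu hv
  zero_mem' := by
    show iota P b 0 ∈ I
    rw [map_zero]; exact I.zero_mem
  smul_mem' := fun r z hz => by
    show iota P b (r * z) ∈ I
    rw [map_mul]; exact hl _ _ hz

theorem mem_JI {I : AddSubgroup (MonoidAlgebra P (elemGroup R Λ))}
    {hl : ∀ r : MonoidAlgebra P (elemGroup R Λ), ∀ i ∈ I, r * i ∈ I} {b : Λ} {z : CR P R Λ} :
    z ∈ JI I hl b ↔ iota P b z ∈ I := Iff.rfl

/-- The result of the elimination. -/
theorem exists_prod [Infinite Λ] {I : AddSubgroup (MonoidAlgebra P (elemGroup R Λ))}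
    (hl : ∀ r : MonoidAlgebra P (elemGroup R Λ), ∀ i ∈ I, r * i ∈ I)
    (hr : ∀ r : MonoidAlgebra P (elemGroup R Λ), ∀ i ∈ I, i * r ∈ I)
    {α : MonoidAlgebra P (elemGroup R Λ)} (hα : α ∈ I) (hα0 : α ≠ 0) :
    ∃ (b : Λ) (g₀ : elemGroup R Λ) (T : Finset (elemGroup R Λ)),
      Fx b (g₀ : (Λ →₀ R) ≃ₗ[R] (Λ →₀ R)) ∧
      (∀ k ∈ T, Fx b ((k : elemGroup R Λ) : (Λ →₀ R) ≃ₗ[R] (Λ →₀ R)) ∧ k ≠ g₀) ∧
      ∀ v : elemGroup R Λ → Λ →₀ R, (∏ k ∈ T,
        (mon P (((k⁻¹ : elemGroup R Λ) : (Λ →₀ R) ≃ₗ[R] (Λ →₀ R)) (v k) -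
          ((g₀⁻¹ : elemGroup R Λ) : (Λ →₀ R) ≃ₗ[R] (Λ →₀ R)) (v k)) - 1)) ∈ JI I hl b := by
  classical
  obtain ⟨g₀, hg₀⟩ : ∃ k, k ∈ α.coeff.support := by
    rw [← Finset.nonempty_def, Finset.nonempty_iff_ne_empty]
    intro h0
    exact hα0 (coeff_eq_zero.1 (Finsupp.support_eq_empty.1 h0))
  set S := α.coeff.support with hSdef
  -- a coordinate fixed by all elements of the support
  have hfin : (⋃ g ∈ S, {b | ¬ Fx b ((g : elemGroup R Λ) : (Λ →₀ R) ≃ₗ[R] (Λ →₀ R))}).Finite :=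
    Set.Finite.biUnion S.finite_toSet fun g _ => finite_not_Fx g.2
  obtain ⟨b, hb⟩ := hfin.exists_notMem
  have hS : ∀ g ∈ S, Fx b ((g : elemGroup R Λ) : (Λ →₀ R) ≃ₗ[R] (Λ →₀ R)) := by
    intro g hg
    by_contra hcon
    exact hb (Set.mem_biUnion hg hcon)
  refine ⟨b, g₀, S.erase g₀, hS g₀ hg₀, fun k hk => ⟨hS k (Finset.mem_of_mem_erase hk),
    Finset.ne_of_mem_erase hk⟩, fun v => ?_⟩
  have hI : ∑ g ∈ S, of P _ g * iota P b (α.coeff g • (1 : CR P R Λ)) ∈ I := by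
    have h1 : ∑ g ∈ S, of P _ g * iota P b (α.coeff g • (1 : CR P R Λ)) = α := by
      conv_rhs => rw [← MonoidAlgebra.sum_coeff_single α, Finsupp.sum]
      refine Finset.sum_congr rfl fun g _ => ?_
      rw [map_smul, map_one, mul_smul_comm, mul_one, of_apply, smul_single, smul_eq_mul, mul_one]
    rw [h1]; exact hα
  have h2 := elimE hl hr b S hS α.coeff hI v (S.erase g₀) (Finset.erase_subset _ _)
  rw [Finset.sum_eq_single_of_mem g₀ hg₀] at h2
  · rw [mem_JI]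
    have h3 := hl (of P _ g₀⁻¹) _ h2
    rw [← mul_assoc, ← map_mul, inv_mul_cancel, map_one, one_mul, map_smul] at h3
    have h4 := hl (algebraMap P _ (α.coeff g₀)⁻¹) _ h3
    rw [← Algebra.smul_def, smul_smul, inv_mul_cancel₀ (Finsupp.mem_support_iff.1 hg₀),
      one_smul] at h4
    exact h4
  · intro g hg hgg
    have h3 : (∏ k ∈ S.erase g₀,
        (mon P (((k⁻¹ : elemGroup R Λ) : (Λ →₀ R) ≃ₗ[R] (Λ →₀ R)) (v k) -
          ((g⁻¹ : elemGroup R Λ) : (Λ →₀ R) ≃ₗ[R] (Λ →₀ R)) (v k)) - 1)) = 0 := by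
      apply Finset.prod_eq_zero (Finset.mem_erase.2 ⟨hgg, hg⟩)
      rw [sub_self, mon_zero, sub_self]
    rw [h3, smul_zero, map_zero, mul_zero]

end Pool.Agent.Helper66.EL
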