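import Pool.Agent.Helper66.EL.Radical
import Pool.Agent.Helper66.AI.Basic

/-!
# Simplicity of the augmentation ideal for elementary groups of infinite rank
-/

namespace Pool.Agent.Helper66.EL

open MonoidAlgebra Pool.Agent.Helper66.AI

section comm

variable {A : Type*} [CommRing A]

/-- If `m ^ p = 1` and `p` is invertible, then `m - 1` is von Neumann regular. -/
theorem exists_regular {p : ℕ} {m u : A} (hm : m ^ p = 1) (hu : (p : A) * u = 1) :
    ∃ y, m - 1 = (m - 1) * (m - 1) * y := by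
  have h1 : ∀ i : ℕ, (m - 1) * ∑ j ∈ Finset.range i, m ^ j = m ^ i - 1 := fun i => by
    rw [mul_comm]; exact geom_sum_mul m i
  let s := ∑ i ∈ Finset.range p, ∑ j ∈ Finset.range i, m ^ j
  have h2 : (m - 1) * s = (∑ i ∈ Finset.range p, m ^ i) - p := by
    simp only [s]
    rw [Finset.mul_sum]
    simp only [h1]
    rw [Finset.sum_sub_distrib]
    simp
  have h3 : (m - 1) * ∑ i ∈ Finset.range p, m ^ i = 0 := by rw [h1, hm, sub_self]
  refine ⟨-(s * u), ?_⟩
  have h4 : (m - 1) * ((m - 1) * s) = -((m - 1) * p) := by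
    rw [h2, mul_sub, h3, zero_sub]
  calc m - 1 = (m - 1) * ((p : A) * u) := by rw [hu, mul_one]
    _ = -((m - 1) * ((m - 1) * s)) * u := by rw [h4]; ring
    _ = _ := by ring

theorem mem_of_regular {J : Ideal A} {z y : A} (hz : z = z * z * y) {n : ℕ} (hn : z ^ n ∈ J) :
    z ∈ J := by
  have h1 : ∀ k : ℕ, z = z ^ (k + 1) * y ^ k := by
    intro k
    induction k with
    | zero => ring
    | succ k ih =>
      calc z = z ^ (k + 1) * y ^ k := ih
        _ = z ^ k * y ^ k * z := by ring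
        _ = z ^ k * y ^ k * (z * z * y) := by rw [← hz]
        _ = _ := by ring
  rw [h1 n, pow_succ, mul_assoc]
  exact J.mul_mem_right _ hn

end comm

variable {P : Type*} [Field P] {R : Type*} [Ring R] {Λ : Type*}

theorem mon_pow (w : Λ →₀ R) (n : ℕ) : mon P w ^ n = mon P (n • w) := by
  induction n with
  | zero => rw [pow_zero, zero_smul, mon_zero]
  | succ n ih => rw [pow_succ, ih, succ_nsmul, mon_add]

/-- The elementary element `e_{ab}(r)`. -/
noncomputable def E (a b : Λ) (r : R) : elemGroup R Λ := x b (Finsupp.single a r)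

theorem E_apply {a b : Λ} (hab : a ≠ b) (r : R) (v : Λ →₀ R) :
    (E a b r : (Λ →₀ R) ≃ₗ[R] (Λ →₀ R)) v = v + Finsupp.single a (v b * r) := by
  rw [E, x_apply, q_eq (Finsupp.single_eq_of_ne hab.symm), Finsupp.smul_single, smul_eq_mul]

theorem E_eq {a b : Λ} (hab : a ≠ b) {r : R} {g : (Λ →₀ R) ≃ₗ[R] (Λ →₀ R)}
    (hg : ∀ v, g v = v + Finsupp.single a (v b * r)) :
    (E a b r : (Λ →₀ R) ≃ₗ[R] (Λ →₀ R)) = g := by
  ext1 v
  rw [E_apply hab, hg]

theorem E_comm {a b c : Λ} (hab : a ≠ b) (hbc : b ≠ c) (hac : a ≠ c) (r s : R) :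
    E a b r * E b c s * (E a b r)⁻¹ * (E b c s)⁻¹ = E a c (s * r) := by
  rw [mul_inv_eq_iff_eq_mul, mul_inv_eq_iff_eq_mul]
  apply Subtype.ext
  apply LinearEquiv.ext
  intro v
  show (E a b r : (Λ →₀ R) ≃ₗ[R] (Λ →₀ R)) ((E b c s : (Λ →₀ R) ≃ₗ[R] (Λ →₀ R)) v) =
    (E a c (s * r) : (Λ →₀ R) ≃ₗ[R] (Λ →₀ R)) ((E b c s : (Λ →₀ R) ≃ₗ[R] (Λ →₀ R))
      ((E a b r : (Λ →₀ R) ≃ₗ[R] (Λ →₀ R)) v))
  rw [E_apply hab, E_apply hbc, E_apply hbc, E_apply hac, E_apply hab]
  simp only [Finsupp.add_apply, Finsupp.single_eq_same, Finsupp.single_eq_of_ne hac.symm,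
    Finsupp.single_eq_of_ne hbc.symm, add_zero, add_mul, Finsupp.single_add, mul_assoc]
  abel

/-- A normal subgroup containing `e_{ab}(1)` is the whole group. -/
theorem normal_eq_top [Infinite Λ] (N : Subgroup (elemGroup R Λ)) [hN : N.Normal] {a b : Λ}
    (hab : a ≠ b) (h : E a b (1 : R) ∈ N) : N = ⊤ := by
  classical
  have third : ∀ a b : Λ, ∃ c, c ≠ a ∧ c ≠ b := by
    intro a b
    obtain ⟨c, hc⟩ := Infinite.exists_notMem_finset ({a, b} : Finset Λ)
    simp only [Finset.mem_insert, Finset.mem_singleton, not_or] at hc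
    exact ⟨c, hc.1, hc.2⟩
  -- commutators with elements of `N` are in `N`
  have cl : ∀ {g n : elemGroup R Λ}, n ∈ N → g * n * g⁻¹ * n⁻¹ ∈ N := fun hn =>
    N.mul_mem (hN.conj_mem _ hn _) (N.inv_mem hn)
  have cr : ∀ {g n : elemGroup R Λ}, n ∈ N → n * g * n⁻¹ * g⁻¹ ∈ N := by
    intro g n hn
    have : n * g * n⁻¹ * g⁻¹ = n * (g * n⁻¹ * g⁻¹) := by group
    rw [this]
    exact N.mul_mem hn (hN.conj_mem _ (N.inv_mem hn) _)
  -- from one pair to the row
  have row : ∀ {a b c : Λ}, a ≠ b → c ≠ a → c ≠ b → E a b (1 : R) ∈ N →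
      ∀ s : R, E a c s ∈ N := by
    intro a b c hab hca hcb h s
    have := E_comm (R := R) hab hcb.symm hca.symm 1 s
    rw [mul_one] at this
    rw [← this]
    exact cr h
  have col : ∀ {a b c : Λ}, a ≠ b → c ≠ a → c ≠ b → E a b (1 : R) ∈ N →
      ∀ s : R, E c b s ∈ N := by
    intro a b c hab hca hcb h s
    have := E_comm (R := R) hca hab hcb s 1
    rw [one_mul] at this
    rw [← this]
    exact cl h
  have row' : ∀ {a b c : Λ}, a ≠ b → c ≠ a → E a b (1 : R) ∈ N → ∀ s : R, E a c s ∈ N := by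
    intro a b c hab hca h s
    by_cases hcb : c = b
    · subst hcb
      obtain ⟨d, hda, hdc⟩ := third a c
      exact row (Ne.symm hda) hca hdc.symm (row hab hda hdc h 1) s
    · exact row hab hca hcb h s
  have col' : ∀ {a b c : Λ}, a ≠ b → c ≠ b → E a b (1 : R) ∈ N → ∀ s : R, E c b s ∈ N := by
    intro a b c hab hcb h s
    by_cases hca : c = a
    · subst hca
      exact row' hab hab.symm h s
    · exact col hab hca hcb h s
  have all : ∀ {c d : Λ}, c ≠ d → ∀ s : R, E c d s ∈ N := by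
    intro c d hcd s
    by_cases hda : d = a
    · subst hda
      obtain ⟨e, hed, hec⟩ := third d c
      -- `E d b 1 ∈ N`, so `E e b 1 ∈ N` if `e ≠ b`
      by_cases hcb : c = b
      · subst hcb
        -- want `E c d s`, know `E d c 1`
        have h1 : E e c (1 : R) ∈ N := col' hcd.symm hec h 1
        have h2 : E e d (1 : R) ∈ N := row' hec hed.symm h1 1
        exact col' hed hcd h2 s
      · have h1 : E c b (1 : R) ∈ N := col' hab hcb h 1
        exact row' hcb hcd.symm h1 s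
    · have h1 : E a d (1 : R) ∈ N := row' hab hda h 1
      exact col' (Ne.symm hda) hcd h1 s
  rw [eq_top_iff]
  rintro ⟨g, hg⟩ -
  induction hg using Subgroup.closure_induction with
  | mem g hg =>
    obtain ⟨c, d, s, hcd, hgs⟩ := hg
    have h1 := all hcd s
    have h2 : (⟨g, Subgroup.subset_closure ⟨c, d, s, hcd, hgs⟩⟩ : elemGroup R Λ) = E c d s :=
      Subtype.ext (E_eq hcd hgs).symm
    rw [h2]; exact h1
  | one => exact N.one_mem
  | mul g k hg hk ihg ihk => exact N.mul_mem ihg ihk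
  | inv g hg ih => exact N.inv_mem ih

theorem mon_mem_of_conj {I : AddSubgroup (MonoidAlgebra P (elemGroup R Λ))}
    (hl : ∀ r : MonoidAlgebra P (elemGroup R Λ), ∀ i ∈ I, r * i ∈ I)
    (hr : ∀ r : MonoidAlgebra P (elemGroup R Λ), ∀ i ∈ I, i * r ∈ I) {b : Λ}
    (h : elemGroup R Λ) (hh : Fx b (h : (Λ →₀ R) ≃ₗ[R] (Λ →₀ R))) {ι : Type*} (T : Finset ι)
    (w : ι → Λ →₀ R) (hw : (∏ k ∈ T, (mon P (w k) - 1)) ∈ JI I hl b) :
    (∏ k ∈ T, (mon P ((h : (Λ →₀ R) ≃ₗ[R] (Λ →₀ R)) (w k)) - 1)) ∈ JI I hl b := by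
  rw [mem_JI, ← conj_prod hh]
  exact hr _ _ (hl _ _ hw)

/-- A prime or zero characteristic. -/
theorem ringChar_prime [IsSimpleRing R] (h : ringChar R ≠ 0) : (ringChar R).Prime := by
  have h1 : ringChar R ≠ 1 := by
    intro h1
    have : ((ringChar R : ℕ) : R) = 0 := ringChar.Nat.cast_ringChar
    rw [h1, Nat.cast_one] at this
    exact one_ne_zero this
  rw [Nat.prime_def]
  refine ⟨by omega, fun m hm => ?_⟩
  obtain ⟨n, hn⟩ := hm
  by_cases hm0 : (m : R) = 0
  · right
    exact Nat.dvd_antisymm ⟨n, hn⟩ ((ringChar.spec R m).1 hm0)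
  · left
    let K : TwoSidedIdeal R := TwoSidedIdeal.mk' {r | (n : R) * r = 0}
      (by simp) (by
        intro u v hu hv
        show (n : R) * (u + v) = 0
        rw [mul_add, show (n : R) * u = 0 from hu, show (n : R) * v = 0 from hv, add_zero])
      (by
        intro u hu
        show (n : R) * (-u) = 0
        rw [mul_neg, show (n : R) * u = 0 from hu, neg_zero])
      (by
        intro u v hv
        show (n : R) * (u * v) = 0
        rw [← mul_assoc, Nat.cast_comm, mul_assoc, show (n : R) * v = 0 from hv, mul_zero])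
      (by
        intro u v hu
        show (n : R) * (u * v) = 0
        rw [← mul_assoc, show (n : R) * u = 0 from hu, zero_mul])
    have h2 : (m : R) ∈ K := by
      rw [TwoSidedIdeal.mem_mk']
      show (n : R) * (m : R) = 0
      rw [← Nat.cast_mul, mul_comm n m, ← hn]
      exact ringChar.Nat.cast_ringChar
    have h3 := IsSimpleRing.one_mem_of_ne_zero_mem K hm0 h2
    rw [TwoSidedIdeal.mem_mk'] at h3
    have h4 : (n : R) * 1 = 0 := h3
    rw [mul_one, ringChar.spec] at h4
    have h5 : n ≠ 0 := by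
      rintro rfl
      rw [mul_zero] at hn
      exact h hn
    obtain ⟨k, hk⟩ := h4
    have h6 : n * (m * k) = n * 1 := by
      rw [mul_one, ← mul_assoc, mul_comm n m, ← hn, ← hk]
    have h7 := Nat.eq_of_mul_eq_mul_left (Nat.pos_of_ne_zero h5) h6
    exact Nat.dvd_one.1 ⟨k, h7.symm⟩

/-- Integers which are not zero are invertible in a simple ring. -/
theorem exists_inv_natCast [IsSimpleRing R] {n : ℕ} (h : (n : R) ≠ 0) :
    ∃ r : R, (n : R) * r = 1 ∧ r * n = 1 := by
  let K : TwoSidedIdeal R := TwoSidedIdeal.mk' {x | ∃ r : R, x = (n : R) * r}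
    ⟨0, by rw [mul_zero]⟩ (by
      rintro _ _ ⟨u, rfl⟩ ⟨v, rfl⟩
      exact ⟨u + v, by rw [mul_add]⟩)
    (by
      rintro _ ⟨u, rfl⟩
      exact ⟨-u, by rw [mul_neg]⟩)
    (by
      rintro u _ ⟨v, rfl⟩
      exact ⟨u * v, by rw [← mul_assoc, ← mul_assoc, Nat.cast_comm]⟩)
    (by
      rintro _ v ⟨u, rfl⟩
      exact ⟨u * v, by rw [mul_assoc]⟩)
  have h1 : (n : R) ∈ K := by
    rw [TwoSidedIdeal.mem_mk']
    exact ⟨1, by rw [mul_one]⟩
  have h2 := IsSimpleRing.one_mem_of_ne_zero_mem K h h1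
  rw [TwoSidedIdeal.mem_mk'] at h2
  obtain ⟨r, hr⟩ := h2
  exact ⟨r, hr.symm, by rw [← Nat.cast_comm]; exact hr.symm⟩

/-- There is an element of the group which multiplies the basis vector `a` by `κ`. -/
theorem exists_scale {a b c : Λ} (hab : a ≠ b) (hac : a ≠ c) (hcb : c ≠ b) {κ ν : R}
    (h : κ * ν = 1) : ∃ g : elemGroup R Λ, Fx b (g : (Λ →₀ R) ≃ₗ[R] (Λ →₀ R)) ∧
      (g : (Λ →₀ R) ≃ₗ[R] (Λ →₀ R)) (Finsupp.single a 1) = Finsupp.single a κ := by
  have hfx : ∀ {d e : Λ} (r : R), d ≠ e → d ≠ b → e ≠ b →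
      Fx b (E d e r : (Λ →₀ R) ≃ₗ[R] (Λ →₀ R)) := by
    intro d e r hde hdb heb
    exact Fx_X heb.symm (Finsupp.single_eq_of_ne hdb.symm)
  refine ⟨E c a (ν - 1) * (E a c 1 * E c a (κ - 1)), (hfx _ hac.symm hcb hab).mul
    ((hfx _ hac hab hcb).mul (hfx _ hac.symm hcb hab)), ?_⟩
  show (E c a (ν - 1) : (Λ →₀ R) ≃ₗ[R] (Λ →₀ R)) ((E a c (1 : R) : (Λ →₀ R) ≃ₗ[R] (Λ →₀ R))
    ((E c a (κ - 1) : (Λ →₀ R) ≃ₗ[R] (Λ →₀ R)) (Finsupp.single a 1))) = _
  rw [E_apply hac.symm (κ - 1), E_apply hac, E_apply hac.symm]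
  simp only [Finsupp.add_apply, Finsupp.single_eq_same, Finsupp.single_eq_of_ne hac,
    Finsupp.single_eq_of_ne hac.symm, zero_add, add_zero, one_mul, mul_one]
  have h1 : (1 + (κ - 1)) * (ν - 1) = 1 - κ := by
    rw [add_sub_cancel, mul_sub, h, mul_one]
  rw [h1]
  have h2 : Finsupp.single a (1 : R) + Finsupp.single c (κ - 1) + Finsupp.single a (κ - 1) +
      Finsupp.single c (1 - κ) = Finsupp.single a (1 + (κ - 1)) +
        Finsupp.single c ((κ - 1) + (1 - κ)) := by
    rw [Finsupp.single_add, Finsupp.single_add c]; abel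
  rw [h2, add_sub_cancel, sub_add_sub_cancel, sub_self, Finsupp.single_zero, add_zero]

/-- Each nonzero ideal of the group ring contains the augmentation ideal. -/
theorem augIdeal_le_elem [IsSimpleRing R] [Infinite R] [Infinite Λ]
    (hchar : ringChar R ≠ ringChar P) (I : AddSubgroup (MonoidAlgebra P (elemGroup R Λ)))
    (hl : ∀ r : MonoidAlgebra P (elemGroup R Λ), ∀ i ∈ I, r * i ∈ I)
    (hr : ∀ r : MonoidAlgebra P (elemGroup R Λ), ∀ i ∈ I, i * r ∈ I) (hI : I ≠ ⊥) :
    ∀ y ∈ augIdeal P (elemGroup R Λ), y ∈ I := by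
  classical
  obtain ⟨α, hαI, hα0⟩ : ∃ x ∈ I, x ≠ 0 := by
    by_contra hcon
    push Not at hcon
    exact hI (eq_bot_iff.2 fun x hx => AddSubgroup.mem_bot.2 (hcon x hx))
  obtain ⟨b, g₀, T, hg₀, hT, hprod⟩ := exists_prod hl hr hαI hα0
  have hJb : ∀ c : R, mon P (Finsupp.single b c) - 1 ∈ JI I hl b := by
    intro c
    rw [mem_JI, map_sub, iota_mon, x_single_self, map_one, map_one, sub_self]
    exact I.zero_mem
  have hrad := mon_mem_radical (JI I hl b) b hJb g₀ T hg₀ hT hprod
    (fun h hh w hw => mon_mem_of_conj hl hr h hh T w hw)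
  obtain ⟨a, ha⟩ := Infinite.exists_notMem_finset ({b} : Finset Λ)
  obtain ⟨c, hc⟩ := Infinite.exists_notMem_finset ({a, b} : Finset Λ)
  simp only [Finset.mem_insert, Finset.mem_singleton, not_or] at ha hc
  have hab : a ≠ b := ha
  have hac : a ≠ c := Ne.symm hc.1
  have hcb : c ≠ b := hc.2
  have hpow : ∀ w : Λ →₀ R, ∀ n : ℕ, (mon P w - 1) ^ n =
      ∏ _k ∈ Finset.range n, (mon P w - 1) := fun w n => by simp
  have key : mon P (Finsupp.single a (1 : R)) - 1 ∈ JI I hl b := by
    obtain ⟨N, hN⟩ := hrad (Finsupp.single a (1 : R))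
    by_cases hR : ringChar R = 0
    · -- characteristic zero
      set q := ringChar P with hq
      have hq0 : q ≠ 0 := fun h => hchar (hR.trans h.symm)
      have hqp : q.Prime := (CharP.char_is_prime_or_zero P q).resolve_right hq0
      have hqR : (q : R) ≠ 0 := by
        intro h
        rw [ringChar.spec, hR, Nat.zero_dvd] at h
        exact hq0 h
      obtain ⟨κ, hκ1, hκ2⟩ := exists_inv_natCast hqR
      have hκn : ∀ n : ℕ, κ ^ n * (q : R) ^ n = 1 := by
        intro n
        have hcomm : Commute κ (q : R) := (Nat.cast_commute q κ).symm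
        rw [← hcomm.mul_pow, hκ2, one_pow]
      obtain ⟨n, hn⟩ : ∃ n : ℕ, N ≤ q ^ n := ⟨N, (Nat.lt_pow_self hqp.one_lt).le⟩
      obtain ⟨g, hg, hga⟩ := exists_scale hab hac hcb (hκn n)
      have h1 : (mon P (Finsupp.single a (κ ^ n)) - 1) ^ N ∈ JI I hl b := by
        rw [hpow] at hN ⊢
        have := mon_mem_of_conj hl hr g hg _ _ hN
        simp only [hga] at this
        exact this
      have h2 : mon P (Finsupp.single a (1 : R)) =
          mon P (Finsupp.single a (κ ^ n)) ^ q ^ n := by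
        rw [mon_pow, Finsupp.smul_single, nsmul_eq_mul, Nat.cast_pow]
        congr 2
        have hcomm : Commute κ (q : R) := (Nat.cast_commute q κ).symm
        rw [(hcomm.symm.pow_pow n n).eq, hκn n]
      have : CharP (CR P R Λ) q :=
        charP_of_injective_algebraMap (algebraMap P (CR P R Λ)).injective q
      have : Fact q.Prime := ⟨hqp⟩
      have h3 : mon P (Finsupp.single a (1 : R)) - 1 =
          (mon P (Finsupp.single a (κ ^ n)) - 1) ^ q ^ n := by
        rw [sub_pow_char_pow, one_pow, h2]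
      rw [h3, ← Nat.sub_add_cancel hn, pow_add]
      exact Ideal.mul_mem_left _ _ h1
    · -- positive characteristic
      have hp := ringChar_prime hR
      set p := ringChar R with hpdef
      have hpP : (p : P) ≠ 0 := by
        intro h
        rw [ringChar.spec] at h
        rcases (Nat.dvd_prime hp).1 h with h1 | h1
        · have h2 : ((ringChar P : ℕ) : P) = 0 := ringChar.Nat.cast_ringChar
          rw [h1, Nat.cast_one] at h2
          exact one_ne_zero h2
        · exact hchar h1.symm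
      have h1 : mon P (Finsupp.single a (1 : R)) ^ p = 1 := by
        rw [mon_pow, Finsupp.smul_single, nsmul_eq_mul, mul_one]
        have h2 : ((p : ℕ) : R) = 0 := ringChar.Nat.cast_ringChar
        rw [h2, Finsupp.single_zero, mon_zero]
      have h2 : ((p : ℕ) : CR P R Λ) * algebraMap P (CR P R Λ) (p : P)⁻¹ = 1 := by
        rw [← map_natCast (algebraMap P (CR P R Λ)) p, ← map_mul, mul_inv_cancel₀ hpP, map_one]
      obtain ⟨y, hy⟩ := exists_regular h1 h2
      exact mem_of_regular hy hN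
  rw [mem_JI, map_sub, iota_mon, map_one] at key
  -- the normal subgroup
  let N : Subgroup (elemGroup R Λ) :=
    { carrier := {g | of P _ g - 1 ∈ I}
      one_mem' := by
        show of P _ 1 - 1 ∈ I
        rw [map_one, sub_self]; exact I.zero_mem
      mul_mem' := by
        intro g k hg hk
        show of P _ (g * k) - 1 ∈ I
        have : of P (elemGroup R Λ) (g * k) - 1 = of P _ g * (of P _ k - 1) +
            (of P _ g - 1) := by
          rw [map_mul]; noncomm_ring
        rw [this]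
        exact I.add_mem (hl _ _ hk) hg
      inv_mem' := by
        intro g hg
        show of P _ g⁻¹ - 1 ∈ I
        have : of P (elemGroup R Λ) g⁻¹ - 1 = -(of P _ g⁻¹ * (of P _ g - 1)) := by
          rw [mul_sub, ← map_mul, inv_mul_cancel, map_one]; noncomm_ring
        rw [this]
        exact I.neg_mem (hl _ _ hg) }
  have hmemN : ∀ g, g ∈ N ↔ of P _ g - 1 ∈ I := fun g => Iff.rfl
  have hN : N.Normal := by
    refine ⟨fun s hs' g => ?_⟩
    rw [hmemN] at hs' ⊢
    have : of P (elemGroup R Λ) (g * s * g⁻¹) - 1 = of P _ g * (of P _ s - 1) *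
        of P _ g⁻¹ := by
      rw [mul_sub, sub_mul, mul_one, ← map_mul, ← map_mul, ← map_mul, mul_inv_cancel, map_one]
    rw [this]
    exact hr _ _ (hl _ _ hs')
  have htop : N = ⊤ := normal_eq_top N hab key
  intro y hy
  refine augIdeal_le hl (fun g => ?_) hy
  rw [← hmemN, htop]
  exact Subgroup.mem_top g

theorem infinite_elem [Infinite R] [Nontrivial Λ] : Infinite (elemGroup R Λ) := by
  obtain ⟨a, b, hab⟩ := exists_pair_ne Λ
  refine Infinite.of_injective (fun r : R => E a b r) ?_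
  intro r s h
  have h1 : (E a b r : (Λ →₀ R) ≃ₗ[R] (Λ →₀ R)) (Finsupp.single b 1) =
      (E a b s : (Λ →₀ R) ≃ₗ[R] (Λ →₀ R)) (Finsupp.single b 1) := by
    have : E a b r = E a b s := h
    rw [this]
  rw [E_apply hab, E_apply hab] at h1
  have h2 := add_left_cancel h1
  simpa using Finsupp.single_injective a h2

theorem augSimple_elem [IsSimpleRing R] [Infinite R] [Infinite Λ]
    (hchar : ringChar R ≠ ringChar P) : AugSimple P (elemGroup R Λ) := by
  have : Infinite (elemGroup R Λ) := infinite_elem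
  exact augSimple_of fun I hl hr hI => augIdeal_le_elem hchar I hl hr hI

end Pool.Agent.Helper66.EL
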