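import Mathlib

/-!
# The elementary group of infinite rank
-/

namespace Pool.Agent.Helper66.EL

/-- The group of automorphisms of the free left `R`-module with basis `Λ` generated by the
elementary transvections `v ↦ v + v_b r e_a`, where `a ≠ b` and `r ∈ R`. -/
noncomputable def elemGroup (R : Type*) [Ring R] (Λ : Type*) :
    Subgroup ((Λ →₀ R) ≃ₗ[R] (Λ →₀ R)) :=
  Subgroup.closure {g | ∃ (a b : Λ) (r : R), a ≠ b ∧ ∀ v : Λ →₀ R,
    g v = v + Finsupp.single a (v b * r)}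

variable {R : Type*} [Ring R] {Λ : Type*}

/-- The vector `w` with the coordinate `b` replaced by zero. -/
noncomputable def q (b : Λ) (w : Λ →₀ R) : Λ →₀ R := w - Finsupp.single b (w b)

@[simp] theorem q_apply (b : Λ) (w : Λ →₀ R) : q b w b = 0 := by simp [q]

theorem q_add (b : Λ) (w w' : Λ →₀ R) : q b (w + w') = q b w + q b w' := by
  simp only [q, Finsupp.add_apply, Finsupp.single_add]; abel

theorem q_eq {b : Λ} {w : Λ →₀ R} (h : w b = 0) : q b w = w := by simp [q, h]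

theorem q_single (b : Λ) (c : R) : q b (Finsupp.single b c) = 0 := by simp [q]

/-- The automorphism `v ↦ v + v_b w`. -/
noncomputable def X (b : Λ) (w : Λ →₀ R) : (Λ →₀ R) ≃ₗ[R] (Λ →₀ R) where
  toFun v := v + v b • q b w
  map_add' u v := by
    rw [Finsupp.add_apply, add_smul]; abel
  map_smul' r v := by
    rw [Finsupp.smul_apply, smul_eq_mul, mul_smul, RingHom.id_apply, smul_add]
  invFun v := v - v b • q b w
  left_inv v := by simp
  right_inv v := by simp

@[simp] theorem X_apply (b : Λ) (w : Λ →₀ R) (v : Λ →₀ R) :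
    X b w v = v + v b • q b w := rfl

theorem X_add (b : Λ) (w w' : Λ →₀ R) : X b (w + w') = X b w * X b w' := by
  ext1 v
  rw [LinearEquiv.mul_apply, X_apply, X_apply, X_apply, q_add, smul_add,
    Finsupp.add_apply, Finsupp.smul_apply, q_apply, smul_zero, add_zero]
  abel

theorem X_zero (b : Λ) : X b (0 : Λ →₀ R) = 1 := by
  ext1 v
  simp [q]

theorem X_single_self (b : Λ) (c : R) : X b (Finsupp.single b c) = 1 := by
  ext1 v
  simp [q_single]

theorem X_mem (b : Λ) (w : Λ →₀ R) : X b w ∈ elemGroup R Λ := by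
  induction w using Finsupp.induction_linear with
  | zero => rw [X_zero]; exact Subgroup.one_mem _
  | add w w' h h' => rw [X_add]; exact Subgroup.mul_mem _ h h'
  | single a r =>
    by_cases hab : a = b
    · subst hab
      rw [X_single_self]; exact Subgroup.one_mem _
    · refine Subgroup.subset_closure ⟨a, b, r, hab, fun v => ?_⟩
      rw [X_apply, q_eq (Finsupp.single_eq_of_ne (Ne.symm hab)), Finsupp.smul_single, smul_eq_mul]

/-- The automorphism `g` preserves the coordinate `b` and fixes the basis vector `b`. -/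
structure Fx (b : Λ) (g : (Λ →₀ R) ≃ₗ[R] (Λ →₀ R)) : Prop where
  coord : ∀ v, g v b = v b
  basis : ∀ c, g (Finsupp.single b c) = Finsupp.single b c

theorem Fx.one (b : Λ) : Fx b (1 : (Λ →₀ R) ≃ₗ[R] (Λ →₀ R)) := ⟨fun _ => rfl, fun _ => rfl⟩

theorem Fx.mul {b : Λ} {g h : (Λ →₀ R) ≃ₗ[R] (Λ →₀ R)} (hg : Fx b g) (hh : Fx b h) :
    Fx b (g * h) :=
  ⟨fun v => by rw [LinearEquiv.mul_apply, hg.coord, hh.coord],
    fun c => by rw [LinearEquiv.mul_apply, hh.basis, hg.basis]⟩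

theorem Fx.inv {b : Λ} {g : (Λ →₀ R) ≃ₗ[R] (Λ →₀ R)} (hg : Fx b g) : Fx b g⁻¹ := by
  refine ⟨fun v => ?_, fun c => ?_⟩
  · rw [← hg.coord (g⁻¹ v), ← LinearEquiv.mul_apply, mul_inv_cancel, LinearEquiv.coe_one, id]
  · conv_lhs => rw [← hg.basis c]
    rw [← LinearEquiv.mul_apply, inv_mul_cancel, LinearEquiv.coe_one, id]

theorem Fx_elem {a b c : Λ} {r : R} {g : (Λ →₀ R) ≃ₗ[R] (Λ →₀ R)}
    (hg : ∀ v, g v = v + Finsupp.single a (v c * r)) (hba : b ≠ a) (hbc : b ≠ c) : Fx b g := by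
  refine ⟨fun v => ?_, fun d => ?_⟩
  · rw [hg, Finsupp.add_apply, Finsupp.single_eq_of_ne hba, add_zero]
  · rw [hg, Finsupp.single_eq_of_ne hbc.symm, zero_mul, Finsupp.single_zero, add_zero]

theorem Fx_X {b c : Λ} {w : Λ →₀ R} (hbc : b ≠ c) (hw : w b = 0) : Fx b (X c w) := by
  refine ⟨fun v => ?_, fun d => ?_⟩
  · rw [X_apply, Finsupp.add_apply, Finsupp.smul_apply, q, Finsupp.sub_apply, hw,
      Finsupp.single_eq_of_ne hbc, sub_zero, smul_zero, add_zero]
  · rw [X_apply, Finsupp.single_eq_of_ne hbc.symm, zero_smul, add_zero]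

/-- Each element of the elementary group fixes almost all basis vectors and coordinates. -/
theorem finite_not_Fx {g : (Λ →₀ R) ≃ₗ[R] (Λ →₀ R)} (hg : g ∈ elemGroup R Λ) :
    {b | ¬ Fx b g}.Finite := by
  induction hg using Subgroup.closure_induction with
  | mem g hg =>
    obtain ⟨a, c, r, _, h⟩ := hg
    refine (Set.toFinite {a, c}).subset ?_
    intro b hb
    by_contra hcon
    simp only [Set.mem_insert_iff, Set.mem_singleton_iff, not_or] at hcon
    exact hb (Fx_elem h hcon.1 hcon.2)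
  | one =>
    refine Set.finite_empty.subset ?_
    intro b hb
    exact hb (Fx.one b)
  | mul g h _ _ ihg ihh =>
    refine (ihg.union ihh).subset ?_
    intro b hb
    by_contra hcon
    simp only [Set.mem_union, Set.mem_ofPred_eq, not_or, not_not] at hcon
    exact hb (hcon.1.mul hcon.2)
  | inv g _ ih =>
    refine ih.subset ?_
    intro b hb h
    exact hb h.inv

theorem Fx.q {b : Λ} {g : (Λ →₀ R) ≃ₗ[R] (Λ →₀ R)} (hg : Fx b g) (w : Λ →₀ R) :
    EL.q b (g w) = g (EL.q b w) := by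
  rw [EL.q, EL.q, map_sub, hg.basis, hg.coord]

theorem conj_X {b : Λ} {g : (Λ →₀ R) ≃ₗ[R] (Λ →₀ R)} (hg : Fx b g) (w : Λ →₀ R) :
    g * X b w * g⁻¹ = X b (g w) := by
  ext1 v
  rw [LinearEquiv.mul_apply, LinearEquiv.mul_apply, X_apply, X_apply, map_add, map_smul,
    hg.q, hg.inv.coord, ← LinearEquiv.mul_apply, mul_inv_cancel, LinearEquiv.coe_one, id]

/-- The homomorphism `w ↦ (v ↦ v + v_b w)`. -/
noncomputable def Xh (b : Λ) : Multiplicative (Λ →₀ R) →* elemGroup R Λ where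
  toFun w := ⟨X b (Multiplicative.toAdd w), X_mem b _⟩
  map_one' := Subtype.ext (X_zero b)
  map_mul' _ _ := Subtype.ext (X_add b _ _)

/-- The element `v ↦ v + v_b w` of the elementary group. -/
noncomputable def x (b : Λ) (w : Λ →₀ R) : elemGroup R Λ := Xh b (Multiplicative.ofAdd w)

theorem x_coe (b : Λ) (w : Λ →₀ R) : (x b w : (Λ →₀ R) ≃ₗ[R] (Λ →₀ R)) = X b w := rfl

theorem x_apply (b : Λ) (w v : Λ →₀ R) :
    (x b w : (Λ →₀ R) ≃ₗ[R] (Λ →₀ R)) v = v + v b • q b w := rfl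

theorem x_add (b : Λ) (w w' : Λ →₀ R) : x b (w + w') = x b w * x b w' :=
  Subtype.ext (X_add b w w')

theorem x_zero (b : Λ) : x b (0 : Λ →₀ R) = 1 := Subtype.ext (X_zero b)

theorem x_neg (b : Λ) (w : Λ →₀ R) : x b (-w) = (x b w)⁻¹ := by
  rw [eq_inv_iff_mul_eq_one, ← x_add, neg_add_cancel, x_zero]

theorem x_single_self (b : Λ) (c : R) : x b (Finsupp.single b c) = 1 :=
  Subtype.ext (X_single_self b c)

theorem conj_x {b : Λ} {g : elemGroup R Λ} (hg : Fx b (g : (Λ →₀ R) ≃ₗ[R] (Λ →₀ R)))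
    (w : Λ →₀ R) : g * x b w * g⁻¹ = x b ((g : (Λ →₀ R) ≃ₗ[R] (Λ →₀ R)) w) :=
  Subtype.ext (conj_X hg w)

theorem conj_x' {b : Λ} {g : elemGroup R Λ} (hg : Fx b (g : (Λ →₀ R) ≃ₗ[R] (Λ →₀ R)))
    (v : Λ →₀ R) : (x b v)⁻¹ * g * x b v =
      g * x b (v - ((g⁻¹ : elemGroup R Λ) : (Λ →₀ R) ≃ₗ[R] (Λ →₀ R)) v) := by
  have h1 : Fx b ((g⁻¹ : elemGroup R Λ) : (Λ →₀ R) ≃ₗ[R] (Λ →₀ R)) := hg.inv
  have h2 := conj_x h1 v
  rw [inv_inv] at h2
  rw [sub_eq_add_neg, add_comm, x_add, x_neg, ← h2]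
  group

end Pool.Agent.Helper66.EL
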