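import Pool.Agent.Helper66.EL.Final
import Pool.Agent.Helper66.AI.Cover

/-!
# Non-simplicity of the augmentation ideal for elementary groups of infinite rank
-/

namespace Pool.Agent.Helper66.EL

open MonoidAlgebra Pool.Agent.Helper66.AI

variable {P : Type*} [Field P] {R : Type*} [Ring R] {Λ : Type*}

/-- If the elementary group is simple, then the ring is simple. -/
theorem isSimpleRing_of [Nontrivial Λ] (h : IsSimpleGroup (elemGroup R Λ)) : IsSimpleRing R := by
  classical
  have hnt : Nontrivial R := by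
    by_contra hcon
    rw [not_nontrivial_iff_subsingleton] at hcon
    obtain ⟨g, hg⟩ := exists_ne (1 : elemGroup R Λ)
    apply hg
    apply Subtype.ext
    apply LinearEquiv.ext
    intro v
    exact Subsingleton.elim _ _
  obtain ⟨a, b, hab⟩ := exists_pair_ne Λ
  refine IsSimpleRing.of_eq_bot_or_eq_top fun K => ?_
  by_cases hK : K = ⊥
  · exact Or.inl hK
  right
  obtain ⟨r, hrK, hr0⟩ : ∃ r ∈ K, r ≠ 0 := by
    by_contra hcon
    push Not at hcon
    apply hK
    rw [eq_bot_iff]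
    intro x hx
    exact (TwoSidedIdeal.mem_bot R).2 (hcon x hx)
  -- linear maps preserve vectors with coordinates in `K`
  have hlin : ∀ (k : (Λ →₀ R) ≃ₗ[R] (Λ →₀ R)) (x : Λ →₀ R), (∀ j, x j ∈ K) →
      ∀ j, (k x) j ∈ K := by
    intro k x hx j
    have h1 : x = x.sum fun i c => c • Finsupp.single i (1 : R) := by
      conv_lhs => rw [← Finsupp.sum_single x]
      refine Finsupp.sum_congr fun i _ => ?_
      rw [Finsupp.smul_single, smul_eq_mul, mul_one]
    rw [h1, Finsupp.sum, map_sum, Finsupp.finsetSum_apply]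
    refine sum_mem fun i _ => ?_
    rw [map_smul, Finsupp.smul_apply, smul_eq_mul]
    exact K.mul_mem_right _ _ (hx i)
  let N : Subgroup (elemGroup R Λ) :=
    { carrier := {g | ∀ v j, ((g : (Λ →₀ R) ≃ₗ[R] (Λ →₀ R)) v - v) j ∈ K}
      one_mem' := by
        intro v j
        show (v - v) j ∈ K
        rw [sub_self]
        exact K.zero_mem
      mul_mem' := by
        intro g k hg hk v j
        show ((g : (Λ →₀ R) ≃ₗ[R] (Λ →₀ R)) ((k : (Λ →₀ R) ≃ₗ[R] (Λ →₀ R)) v) - v) j ∈ K
        have : (g : (Λ →₀ R) ≃ₗ[R] (Λ →₀ R)) ((k : (Λ →₀ R) ≃ₗ[R] (Λ →₀ R)) v) - v =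
            ((g : (Λ →₀ R) ≃ₗ[R] (Λ →₀ R)) ((k : (Λ →₀ R) ≃ₗ[R] (Λ →₀ R)) v) -
              (k : (Λ →₀ R) ≃ₗ[R] (Λ →₀ R)) v) + ((k : (Λ →₀ R) ≃ₗ[R] (Λ →₀ R)) v - v) := by
          abel
        rw [this, Finsupp.add_apply]
        exact K.add_mem (hg _ j) (hk _ j)
      inv_mem' := by
        intro g hg v j
        have h1 := hg (((g⁻¹ : elemGroup R Λ) : (Λ →₀ R) ≃ₗ[R] (Λ →₀ R)) v) j
        have h2 : (g : (Λ →₀ R) ≃ₗ[R] (Λ →₀ R))
            (((g⁻¹ : elemGroup R Λ) : (Λ →₀ R) ≃ₗ[R] (Λ →₀ R)) v) = v := by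
          show ((g * g⁻¹ : elemGroup R Λ) : (Λ →₀ R) ≃ₗ[R] (Λ →₀ R)) v = v
          rw [mul_inv_cancel]; rfl
        rw [h2] at h1
        have h3 := K.neg_mem h1
        rw [← Finsupp.neg_apply, neg_sub] at h3
        exact h3 }
  have hmemN : ∀ g : elemGroup R Λ, g ∈ N ↔
      ∀ v j, ((g : (Λ →₀ R) ≃ₗ[R] (Λ →₀ R)) v - v) j ∈ K := fun g => Iff.rfl
  have hN : N.Normal := by
    refine ⟨fun g hg k => ?_⟩
    rw [hmemN]
    intro v j
    set u := ((k⁻¹ : elemGroup R Λ) : (Λ →₀ R) ≃ₗ[R] (Λ →₀ R)) v with hu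
    have h2 : (k : (Λ →₀ R) ≃ₗ[R] (Λ →₀ R)) u = v := by
      show ((k * k⁻¹ : elemGroup R Λ) : (Λ →₀ R) ≃ₗ[R] (Λ →₀ R)) v = v
      rw [mul_inv_cancel]; rfl
    have h3 : ((k * g * k⁻¹ : elemGroup R Λ) : (Λ →₀ R) ≃ₗ[R] (Λ →₀ R)) v - v =
        (k : (Λ →₀ R) ≃ₗ[R] (Λ →₀ R)) ((g : (Λ →₀ R) ≃ₗ[R] (Λ →₀ R)) u - u) := by
      rw [map_sub, h2]; rfl
    rw [h3]
    exact hlin _ _ (fun i => hg u i) j
  have hE : ∀ s : R, s ∈ K → E a b s ∈ N := by
    intro s hs v j
    rw [E_apply hab, add_sub_cancel_left]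
    by_cases hj : j = a
    · subst hj
      rw [Finsupp.single_eq_same]
      exact K.mul_mem_left _ _ hs
    · rw [Finsupp.single_eq_of_ne hj]
      exact K.zero_mem
  have hE1 : ∀ s : R, E a b s ∈ N → s ∈ K := by
    intro s hs
    have h1 := hs (Finsupp.single b 1) a
    rw [E_apply hab, add_sub_cancel_left, Finsupp.single_eq_same, Finsupp.single_eq_same,
      one_mul] at h1
    exact h1
  have htop : N = ⊤ := by
    rcases hN.eq_bot_or_eq_top with h0 | h0
    · exfalso
      have h1 := hE r hrK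
      rw [h0, Subgroup.mem_bot] at h1
      have h2 : (E a b r : (Λ →₀ R) ≃ₗ[R] (Λ →₀ R)) (Finsupp.single b 1) =
          Finsupp.single b 1 := by rw [h1]; rfl
      rw [E_apply hab, Finsupp.single_eq_same, one_mul, add_eq_left] at h2
      exact hr0 (Finsupp.single_eq_zero.1 h2)
    · exact h0
  rw [← TwoSidedIdeal.one_mem_iff]
  apply hE1
  rw [htop]
  exact Subgroup.mem_top _

section finite

/-- The support is contained in the subgroup `K`. -/
def Sup {H : Type*} [Group H] (K : Subgroup H) (z : MonoidAlgebra P H) : Prop :=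
  ∀ h, z.coeff h ≠ 0 → h ∈ K

theorem coeff_of_mul {H : Type*} [Group H] (y h : H) (z : MonoidAlgebra P H) :
    (of P H y * z).coeff h = z.coeff (y⁻¹ * h) := by
  rw [of_apply, coeff_single_mul_eq_mul_coeff (y⁻¹ * h) (fun m _ => by
    constructor
    · rintro rfl; group
    · rintro rfl; group), one_mul]

theorem Sup.mul {H : Type*} [Group H] {K : Subgroup H} {z : MonoidAlgebra P H} (hz : Sup K z)
    {y : H} (hy : y ∈ K) : Sup K ((of P H y - 1) * z) := by
  intro h hh
  rw [sub_mul, one_mul, coeff_sub, Finsupp.sub_apply, coeff_of_mul] at hh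
  by_contra hcon
  apply hh
  have h1 : z.coeff h = 0 := by
    by_contra h1
    exact hcon (hz h h1)
  have h2 : z.coeff (y⁻¹ * h) = 0 := by
    by_contra h2
    apply hcon
    have := K.mul_mem hy (hz _ h2)
    rwa [mul_inv_cancel_left] at this
  rw [h1, h2, sub_zero]

theorem Sup.mul_ne {H : Type*} [Group H] {K : Subgroup H} {z : MonoidAlgebra P H} (hz : Sup K z)
    (hz0 : z ≠ 0) {y : H} (hy : y ∉ K) : (of P H y - 1) * z ≠ 0 := by
  intro h
  rw [sub_mul, one_mul, sub_eq_zero] at h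
  obtain ⟨k, hk⟩ : ∃ k, z.coeff k ≠ 0 := by
    by_contra hcon
    push Not at hcon
    exact hz0 (coeff_eq_zero.1 (Finsupp.ext hcon))
  have h1 : z.coeff (y * k) ≠ 0 := by
    rw [← h, coeff_of_mul, inv_mul_cancel_left]; exact hk
  apply hy
  have := K.mul_mem (hz _ h1) (K.inv_mem (hz _ hk))
  rwa [mul_inv_cancel_right] at this

theorem not_augSimple_of_finite [Finite R] [Nontrivial R] [Infinite Λ] :
    ¬ AugSimple P (elemGroup R Λ) := by
  classical
  obtain ⟨b₁, hb₁⟩ := Infinite.exists_notMem_finset (∅ : Finset Λ)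
  obtain ⟨b₂, hb₂⟩ := Infinite.exists_notMem_finset ({b₁} : Finset Λ)
  have hb : b₂ ≠ b₁ := by simpa using hb₂
  have : Fintype R := Fintype.ofFinite R
  -- the target coordinates
  have hinf : Infinite {c : Λ // c ∉ ({b₁, b₂} : Finset Λ)} :=
    (Finset.finite_toSet ({b₁, b₂} : Finset Λ)).infinite_compl.to_subtype
  let e : R × R ↪ {c : Λ // c ∉ ({b₁, b₂} : Finset Λ)} :=
    (Fintype.equivFin (R × R)).toEmbedding.trans
      (Fin.valEmbedding.trans (Infinite.natEmbedding _))
  let a : R × R → Λ := fun t => (e t : Λ)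
  have ha : Function.Injective a := fun s t h => e.injective (Subtype.ext h)
  have hab₁ : ∀ t, a t ≠ b₁ := by
    intro t h
    have := (e t).2
    simp only [Finset.mem_insert, Finset.mem_singleton, not_or] at this
    exact this.1 h
  have hab₂ : ∀ t, a t ≠ b₂ := by
    intro t h
    have := (e t).2
    simp only [Finset.mem_insert, Finset.mem_singleton, not_or] at this
    exact this.2 h
  -- the functionals
  have hf : ∀ t : R × R, ∃ f : R × R, f ≠ 0 ∧ t.1 * f.1 + t.2 * f.2 = 0 := by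
    intro t
    have hninj : ¬ Function.Injective (fun f : R × R => t.1 * f.1 + t.2 * f.2) := by
      intro hinj
      have h1 := Fintype.card_le_of_injective _ hinj
      rw [Fintype.card_prod] at h1
      have h2 : 1 < Fintype.card R := Fintype.one_lt_card
      nlinarith
    simp only [Function.Injective, not_forall] at hninj
    obtain ⟨u, v, huv, hne⟩ := hninj
    refine ⟨u - v, sub_ne_zero.2 hne, ?_⟩
    simp only [Prod.fst_sub, Prod.snd_sub, mul_sub]
    have : t.1 * u.1 - t.1 * v.1 + (t.2 * u.2 - t.2 * v.2) =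
        (t.1 * u.1 + t.2 * u.2) - (t.1 * v.1 + t.2 * v.2) := by abel
    rw [this, huv, sub_self]
  choose f hf0 hf using hf
  let y : R × R → elemGroup R Λ := fun t => E (a t) b₁ (f t).1 * E (a t) b₂ (f t).2
  have hy : ∀ t v, (y t : (Λ →₀ R) ≃ₗ[R] (Λ →₀ R)) v =
      v + Finsupp.single (a t) (v b₁ * (f t).1 + v b₂ * (f t).2) := by
    intro t v
    show (E (a t) b₁ (f t).1 : (Λ →₀ R) ≃ₗ[R] (Λ →₀ R))
      ((E (a t) b₂ (f t).2 : (Λ →₀ R) ≃ₗ[R] (Λ →₀ R)) v) = _
    rw [E_apply (hab₁ t), E_apply (hab₂ t), Finsupp.add_apply,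
      Finsupp.single_eq_of_ne (hab₁ t).symm, add_zero, Finsupp.single_add]
    abel
  have hcomm : ∀ s t, Commute (y s) (y t) := by
    intro s t
    rw [commute_iff_eq]
    apply Subtype.ext
    apply LinearEquiv.ext
    intro v
    show (y s : (Λ →₀ R) ≃ₗ[R] (Λ →₀ R)) ((y t : (Λ →₀ R) ≃ₗ[R] (Λ →₀ R)) v) =
      (y t : (Λ →₀ R) ≃ₗ[R] (Λ →₀ R)) ((y s : (Λ →₀ R) ≃ₗ[R] (Λ →₀ R)) v)
    rw [hy, hy, hy, hy]
    simp only [Finsupp.add_apply, Finsupp.single_eq_of_ne (hab₁ _).symm,
      Finsupp.single_eq_of_ne (hab₂ _).symm, add_zero]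
    abel
  -- the subgroups preserving a coordinate
  let K : Λ → Subgroup (elemGroup R Λ) := fun c =>
    { carrier := {g | ∀ v, (g : (Λ →₀ R) ≃ₗ[R] (Λ →₀ R)) v c = v c}
      one_mem' := fun v => rfl
      mul_mem' := by
        intro g k hg hk v
        show (g : (Λ →₀ R) ≃ₗ[R] (Λ →₀ R)) ((k : (Λ →₀ R) ≃ₗ[R] (Λ →₀ R)) v) c = v c
        rw [hg, hk]
      inv_mem' := by
        intro g hg v
        have h1 := hg (((g⁻¹ : elemGroup R Λ) : (Λ →₀ R) ≃ₗ[R] (Λ →₀ R)) v)
        have h2 : (g : (Λ →₀ R) ≃ₗ[R] (Λ →₀ R))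
            (((g⁻¹ : elemGroup R Λ) : (Λ →₀ R) ≃ₗ[R] (Λ →₀ R)) v) = v := by
          show ((g * g⁻¹ : elemGroup R Λ) : (Λ →₀ R) ≃ₗ[R] (Λ →₀ R)) v = v
          rw [mul_inv_cancel]; rfl
        rw [h2] at h1
        exact h1.symm }
  have hyK : ∀ s t, s ≠ t → y s ∈ K (a t) := by
    intro s t hst v
    rw [hy, Finsupp.add_apply, Finsupp.single_eq_of_ne (fun h => hst (ha h).symm), add_zero]
  have hyK' : ∀ t, y t ∉ K (a t) := by
    intro t ht
    have h1 := ht (Finsupp.single b₁ 1)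
    have h2 := ht (Finsupp.single b₂ 1)
    rw [hy, Finsupp.add_apply, add_eq_left, Finsupp.single_eq_same, Finsupp.single_eq_same,
      Finsupp.single_eq_of_ne hb, one_mul, zero_mul, add_zero] at h1
    rw [hy, Finsupp.add_apply, add_eq_left, Finsupp.single_eq_same, Finsupp.single_eq_same,
      Finsupp.single_eq_of_ne hb.symm, one_mul, zero_mul, zero_add] at h2
    exact hf0 t (Prod.ext h1 h2)
  have hprd : ∀ l : List (R × R), l.Nodup → prd P (l.map y) ≠ 0 ∧
      ∀ t, t ∉ l → Sup (K (a t)) (prd P (l.map y)) := by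
    intro l
    induction l with
    | nil =>
      intro _
      refine ⟨by simp [prd], fun t _ h hh => ?_⟩
      have h1 : (prd P (List.map y [])) = 1 := by simp [prd]
      rw [h1, one_def, coeff_single, Finsupp.single_apply] at hh
      have : (1 : elemGroup R Λ) = h := by
        by_contra hcon
        exact hh (if_neg hcon)
      rw [← this]
      exact Subgroup.one_mem _
    | cons s l ih =>
      intro hnd
      rw [List.nodup_cons] at hnd
      obtain ⟨h1, h2⟩ := ih hnd.2
      have h3 : prd P ((s :: l).map y) = (of P _ (y s) - 1) * prd P (l.map y) := by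
        simp [prd]
      rw [h3]
      refine ⟨(h2 s hnd.1).mul_ne h1 (hyK' s), fun t ht => ?_⟩
      rw [List.mem_cons, not_or] at ht
      exact (h2 t ht.2).mul (hyK s t (Ne.symm ht.1))
  refine not_augSimple_of_prd (X := Λ →₀ R) ?_ ((Finset.univ : Finset (R × R)).toList.map y)
    ?_ ?_ (hprd _ (Finset.nodup_toList _)).1
  · obtain ⟨r, hr⟩ := exists_ne (0 : R)
    refine ⟨E b₁ b₂ r, Finsupp.single b₂ 1, fun h => hr ?_⟩
    have h1 : (E b₁ b₂ r : (Λ →₀ R) ≃ₗ[R] (Λ →₀ R)) (Finsupp.single b₂ 1) =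
      Finsupp.single b₂ 1 := h
    rw [E_apply hb.symm, Finsupp.single_eq_same, one_mul, add_eq_left] at h1
    exact Finsupp.single_eq_zero.1 h1
  · rw [List.pairwise_map]
    exact List.pairwise_of_forall (fun s t => hcomm s t)
  · intro v
    refine ⟨y (v b₁, v b₂), List.mem_map.2 ⟨_, Finset.mem_toList.2 (Finset.mem_univ _), rfl⟩, ?_⟩
    show (y (v b₁, v b₂) : (Λ →₀ R) ≃ₗ[R] (Λ →₀ R)) v = v
    rw [hy, hf (v b₁, v b₂), Finsupp.single_zero, add_zero]

end finite

section char

/-- Additive functions do not vanish at `1`. -/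
theorem exists_additive [IsSimpleRing R] (h : ringChar R = ringChar P) :
    ∃ φ : R →+ P, φ 1 ≠ 0 := by
  by_cases h0 : ringChar R = 0
  · have hP : CharZero P := by
      have : CharP P 0 := by rw [← h0, h]; infer_instance
      exact CharP.charP_to_charZero P
    have hR : CharZero R := by
      have : CharP R 0 := by rw [← h0]; infer_instance
      exact CharP.charP_to_charZero R
    have hB : Module.Baer ℤ P := Module.Baer.of_divisible P
    obtain ⟨φ, hφ⟩ := Module.Baer.extension_property_addMonoidHom hB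
      (Int.castAddHom R) Int.cast_injective (Int.castAddHom P)
    refine ⟨φ, ?_⟩
    have h1 := DFunLike.congr_fun hφ 1
    simp only [AddMonoidHom.comp_apply, Int.coe_castAddHom, Int.cast_one] at h1
    rw [h1]
    exact one_ne_zero
  · have hp := ringChar_prime h0
    set p := ringChar R with hpdef
    have : Fact p.Prime := ⟨hp⟩
    have : CharP R p := by rw [hpdef]; infer_instance
    have : CharP P p := by rw [h]; infer_instance
    let _ : Algebra (ZMod p) R := ZMod.algebra R p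
    obtain ⟨φ, hφ⟩ := Module.Projective.exists_dual_ne_zero (ZMod p) (x := (1 : R)) one_ne_zero
    refine ⟨(ZMod.castHom (dvd_refl p) P).toAddMonoidHom.comp φ.toAddMonoidHom, ?_⟩
    intro h1
    apply hφ
    exact (ZMod.castHom (dvd_refl p) P).injective (by rw [map_zero]; exact h1)

/-- The representation on the additive functions. -/
noncomputable def rep (P : Type*) [Field P] (R : Type*) [Ring R] (Λ : Type*) :
    MonoidAlgebra P (elemGroup R Λ) →ₐ[P] (Module.End P ((Λ →₀ R) →+ P))ᵐᵒᵖ :=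
  MonoidAlgebra.lift P _ _
    { toFun := fun g => MulOpposite.op
        { toFun := fun f => f.comp
            ((g : (Λ →₀ R) ≃ₗ[R] (Λ →₀ R)).toAddEquiv : (Λ →₀ R) →+ (Λ →₀ R))
          map_add' := fun _ _ => rfl
          map_smul' := fun _ _ => rfl }
      map_one' := rfl
      map_mul' := fun _ _ => rfl }

theorem rep_of (g : elemGroup R Λ) (f : (Λ →₀ R) →+ P) (v : Λ →₀ R) :
    (rep P R Λ (of P _ g)).unop f v = f ((g : (Λ →₀ R) ≃ₗ[R] (Λ →₀ R)) v) := by
  rw [rep, lift_of]; rfl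

theorem not_augSimple_of_char [IsSimpleRing R] [Infinite Λ] (h : ringChar R = ringChar P) :
    ¬ AugSimple P (elemGroup R Λ) := by
  classical
  intro hs
  obtain ⟨φ, hφ⟩ := exists_additive h
  obtain ⟨b, _⟩ := Infinite.exists_notMem_finset (∅ : Finset Λ)
  obtain ⟨a, ha⟩ := Infinite.exists_notMem_finset ({b} : Finset Λ)
  obtain ⟨c, hc⟩ := Infinite.exists_notMem_finset ({a, b} : Finset Λ)
  simp only [Finset.mem_insert, Finset.mem_singleton, not_or] at ha hc
  have hab : a ≠ b := ha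
  have hac : a ≠ c := Ne.symm hc.1
  have hcb : c ≠ b := hc.2
  have hE : ∀ d : Λ, d ≠ b → ∀ v, (E d b (1 : R) : (Λ →₀ R) ≃ₗ[R] (Λ →₀ R)) v =
      v + Finsupp.single d (v b) := by
    intro d hd v
    rw [E_apply hd, mul_one]
  have hE1 : ∀ d : Λ, d ≠ b → E d b (1 : R) ≠ 1 := by
    intro d hd h1
    have h2 : (E d b (1 : R) : (Λ →₀ R) ≃ₗ[R] (Λ →₀ R)) (Finsupp.single b 1) =
        Finsupp.single b 1 := by rw [h1]; rfl
    rw [hE d hd, add_eq_left, Finsupp.single_eq_same] at h2
    exact one_ne_zero (Finsupp.single_eq_zero.1 h2)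
  have hne : E a b (1 : R) ≠ E c b (1 : R) := by
    intro h1
    have h2 : (E a b (1 : R) : (Λ →₀ R) ≃ₗ[R] (Λ →₀ R)) (Finsupp.single b 1) =
      (E c b (1 : R) : (Λ →₀ R) ≃ₗ[R] (Λ →₀ R)) (Finsupp.single b 1) := by rw [h1]
    rw [hE a hab, hE c hcb, add_right_inj, Finsupp.single_eq_same] at h2
    have h3 := DFunLike.congr_fun h2 a
    rw [Finsupp.single_eq_same, Finsupp.single_eq_of_ne hac] at h3
    exact one_ne_zero h3
  let I : AddSubgroup (MonoidAlgebra P (elemGroup R Λ)) :=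
    (RingHom.ker (rep P R Λ)).toAddSubgroup
  have hker : ∀ x, x ∈ I ↔ rep P R Λ x = 0 := fun x => Iff.rfl
  have hmem : (of P _ (E a b (1 : R)) - 1 : MonoidAlgebra P (elemGroup R Λ)) ∈ I := by
    refine hs.le I ?_ ?_ (x := prd P [E a b (1 : R), E c b (1 : R)]) ?_
      (prd_ne_zero_of_ne (hE1 a hab) (hE1 c hcb) hne) ?_ (of_sub_one_mem _)
    · intro r i hi
      rw [hker] at hi ⊢
      rw [map_mul, hi, mul_zero]
    · intro r i hi
      rw [hker] at hi ⊢
      rw [map_mul, hi, zero_mul]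
    · rw [hker]
      have h1 : prd P [E a b (1 : R), E c b (1 : R)] =
          (of P _ (E a b (1 : R)) - 1) * (of P _ (E c b (1 : R)) - 1) := by simp [prd]
      rw [h1, map_mul, map_sub, map_sub, map_one]
      apply MulOpposite.unop_injective
      refine LinearMap.ext fun f => AddMonoidHom.ext fun v => ?_
      rw [MulOpposite.unop_mul, MulOpposite.unop_sub, MulOpposite.unop_sub, MulOpposite.unop_one,
        Module.End.mul_apply, LinearMap.sub_apply, LinearMap.sub_apply, Module.End.one_apply,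
        Module.End.one_apply, AddMonoidHom.sub_apply, rep_of, AddMonoidHom.sub_apply,
        AddMonoidHom.sub_apply, rep_of, rep_of, hE c hcb, hE a hab, hE a hab,
        Finsupp.add_apply, Finsupp.single_eq_of_ne hcb.symm, add_zero]
      simp only [map_add, MulOpposite.unop_zero, LinearMap.zero_apply, AddMonoidHom.zero_apply]
      abel
    · have h1 : prd P [E a b (1 : R), E c b (1 : R)] =
          (of P _ (E a b (1 : R)) - 1) * (of P _ (E c b (1 : R)) - 1) := by simp [prd]
      rw [h1]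
      exact mem_augIdeal_mul_right (of_sub_one_mem _) _
  rw [hker, map_sub, map_one] at hmem
  let f : (Λ →₀ R) →+ P := φ.comp (Finsupp.applyAddHom a)
  have h1 := congrArg (fun z : (Module.End P ((Λ →₀ R) →+ P))ᵐᵒᵖ =>
    z.unop f (Finsupp.single b 1)) hmem
  simp only [MulOpposite.unop_sub, MulOpposite.unop_one, LinearMap.sub_apply,
    AddMonoidHom.sub_apply, rep_of, Module.End.one_apply, hE a hab, MulOpposite.unop_zero,
    LinearMap.zero_apply, AddMonoidHom.zero_apply, map_add, add_sub_cancel_left,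
    Finsupp.single_eq_same] at h1
  apply hφ
  simpa [f] using h1

end char

/-- The complete answer for elementary groups of infinite rank. -/
theorem augSimple_elem_iff (P : Type*) [Field P] (R : Type*) [Ring R] (Λ : Type*) [Infinite Λ] :
    AugSimple P (elemGroup R Λ) ↔ IsSimpleRing R ∧ Infinite R ∧ ringChar R ≠ ringChar P := by
  constructor
  · intro h
    have h1 : IsSimpleRing R := isSimpleRing_of h.isSimpleGroup
    refine ⟨h1, ?_, fun h2 => not_augSimple_of_char h2 h⟩
    by_contra h2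
    rw [not_infinite_iff_finite] at h2
    exact not_augSimple_of_finite h
  · rintro ⟨h1, h2, h3⟩
    exact augSimple_elem h3

end Pool.Agent.Helper66.EL
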