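import Pool.Agent.Helper66.EL.Elim

/-!
# The radical of the ideal in the group ring of the additive group
-/

namespace Pool.Agent.Helper66.EL

open MonoidAlgebra
open scoped Pointwise

theorem finiteIndex_comap {G G' : Type*} [AddGroup G] [AddGroup G'] (f : G' →+ G)
    (H : AddSubgroup G) [H.FiniteIndex] : (H.comap f).FiniteIndex := by
  refine ⟨?_⟩
  rw [AddSubgroup.index_comap]
  exact (AddSubgroup.isFiniteRelIndex_of_finiteIndex (K := f.range) (H := H)).relIndex_ne_zero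

section simple

variable {R : Type*} [Ring R] [IsSimpleRing R] [Infinite R]

/-- A proper left ideal of an infinite simple ring has infinite index. -/
theorem not_finiteIndex_ideal (𝔞 : Submodule R R) (h𝔞 : 𝔞 ≠ ⊤) :
    ¬ 𝔞.toAddSubgroup.FiniteIndex := by
  intro h
  have h1 : Finite (R ⧸ 𝔞.toAddSubgroup) := AddSubgroup.finite_quotient_of_finiteIndex
  have h2 : Finite (R ⧸ 𝔞) := h1
  have h3 : Nontrivial (R ⧸ 𝔞) := Submodule.Quotient.nontrivial_iff.2 h𝔞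
  have h4 : Finite (AddMonoid.End (R ⧸ 𝔞)) :=
    Finite.of_injective (fun f : AddMonoid.End (R ⧸ 𝔞) => (f : (R ⧸ 𝔞) → (R ⧸ 𝔞)))
      DFunLike.coe_injective
  have h5 : Nontrivial (AddMonoid.End (R ⧸ 𝔞)) := by
    obtain ⟨y, hy⟩ := exists_ne (0 : R ⧸ 𝔞)
    refine ⟨⟨1, 0, fun h => hy ?_⟩⟩
    have := DFunLike.congr_fun h y
    simpa using this
  have h6 : Finite R := Finite.of_injective _ (Module.toAddMonoidEnd R (R ⧸ 𝔞)).injective
  exact not_finite R

/-- The elements `d` for which `d t ∈ 𝔞` holds for all `t` in a subgroup of finite index. -/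
def DI (𝔞 : Submodule R R) : TwoSidedIdeal R :=
  TwoSidedIdeal.mk' {d | (𝔞.toAddSubgroup.comap (AddMonoidHom.mulLeft d)).FiniteIndex}
    (by
      have : 𝔞.toAddSubgroup.comap (AddMonoidHom.mulLeft (0 : R)) = ⊤ := by
        ext t
        simp
      show (𝔞.toAddSubgroup.comap (AddMonoidHom.mulLeft (0 : R))).FiniteIndex
      rw [this]; infer_instance)
    (by
      intro d e hd he
      have hd' : (𝔞.toAddSubgroup.comap (AddMonoidHom.mulLeft d)).FiniteIndex := hd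
      have he' : (𝔞.toAddSubgroup.comap (AddMonoidHom.mulLeft e)).FiniteIndex := he
      show (𝔞.toAddSubgroup.comap (AddMonoidHom.mulLeft (d + e))).FiniteIndex
      refine AddSubgroup.finiteIndex_of_le (H := 𝔞.toAddSubgroup.comap (AddMonoidHom.mulLeft d) ⊓
        𝔞.toAddSubgroup.comap (AddMonoidHom.mulLeft e)) ?_
      rintro t ⟨h1, h2⟩
      show (d + e) * t ∈ 𝔞
      rw [add_mul]
      exact 𝔞.add_mem h1 h2)
    (by
      intro d hd
      have hd' : (𝔞.toAddSubgroup.comap (AddMonoidHom.mulLeft d)).FiniteIndex := hd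
      show (𝔞.toAddSubgroup.comap (AddMonoidHom.mulLeft (-d))).FiniteIndex
      refine AddSubgroup.finiteIndex_of_le (H := 𝔞.toAddSubgroup.comap (AddMonoidHom.mulLeft d)) ?_
      intro t h1
      show -d * t ∈ 𝔞
      rw [neg_mul]
      exact 𝔞.neg_mem h1)
    (by
      intro u d hd
      have hd' : (𝔞.toAddSubgroup.comap (AddMonoidHom.mulLeft d)).FiniteIndex := hd
      show (𝔞.toAddSubgroup.comap (AddMonoidHom.mulLeft (u * d))).FiniteIndex
      refine AddSubgroup.finiteIndex_of_le (H := 𝔞.toAddSubgroup.comap (AddMonoidHom.mulLeft d)) ?_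
      intro t h1
      show u * d * t ∈ 𝔞
      rw [mul_assoc]
      exact 𝔞.smul_mem u h1)
    (by
      intro d s hd
      have hd' : (𝔞.toAddSubgroup.comap (AddMonoidHom.mulLeft d)).FiniteIndex := hd
      show (𝔞.toAddSubgroup.comap (AddMonoidHom.mulLeft (d * s))).FiniteIndex
      have h1 : 𝔞.toAddSubgroup.comap (AddMonoidHom.mulLeft (d * s)) =
          (𝔞.toAddSubgroup.comap (AddMonoidHom.mulLeft d)).comap (AddMonoidHom.mulLeft s) := by
        ext t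
        show d * s * t ∈ 𝔞 ↔ d * (s * t) ∈ 𝔞
        rw [mul_assoc]
      rw [h1]
      exact finiteIndex_comap _ _)

omit [IsSimpleRing R] [Infinite R] in
theorem mem_DI {𝔞 : Submodule R R} {d : R} :
    d ∈ DI 𝔞 ↔ (𝔞.toAddSubgroup.comap (AddMonoidHom.mulLeft d)).FiniteIndex :=
  TwoSidedIdeal.mem_mk' ..

theorem not_finiteIndex_mulLeft (𝔞 : Submodule R R) (h𝔞 : 𝔞 ≠ ⊤) {d : R} (hd : d ≠ 0) :
    ¬ (𝔞.toAddSubgroup.comap (AddMonoidHom.mulLeft d)).FiniteIndex := by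
  intro h
  have h1 : (1 : R) ∈ DI 𝔞 := IsSimpleRing.one_mem_of_ne_zero_mem _ hd (mem_DI.2 h)
  rw [mem_DI] at h1
  apply not_finiteIndex_ideal 𝔞 h𝔞
  have h2 : 𝔞.toAddSubgroup.comap (AddMonoidHom.mulLeft (1 : R)) = 𝔞.toAddSubgroup := by
    ext t
    show 1 * t ∈ 𝔞 ↔ t ∈ 𝔞
    rw [one_mul]
  rwa [h2] at h1

theorem not_finiteIndex_sum {Λ : Type*} (𝔞 : Submodule R R) (h𝔞 : 𝔞 ≠ ⊤) {w : Λ →₀ R}
    (hw : w ≠ 0) (B : AddSubgroup (Λ → R))
    (hB : ∀ r, r ∈ B → (w.sum fun j c => c * r j) ∈ 𝔞) : ¬ B.FiniteIndex := by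
  classical
  intro h
  obtain ⟨j, hj⟩ : ∃ j, w j ≠ 0 := by
    by_contra hcon
    push Not at hcon
    exact hw (Finsupp.ext hcon)
  apply not_finiteIndex_mulLeft 𝔞 h𝔞 hj
  have h1 : (B.comap (AddMonoidHom.single (fun _ : Λ => R) j)).FiniteIndex :=
    finiteIndex_comap _ _
  refine AddSubgroup.finiteIndex_of_le
    (H := B.comap (AddMonoidHom.single (fun _ : Λ => R) j)) ?_
  intro t ht
  show w j * t ∈ 𝔞
  have h2 := hB _ ht
  have h3 : (w.sum fun i c => c * (AddMonoidHom.single (fun _ : Λ => R) j t) i) = w j * t := by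
    rw [Finsupp.sum, Finset.sum_eq_single j]
    · simp
    · intro i _ hij
      simp [Pi.single_eq_of_ne hij]
    · intro hj'
      rw [Finsupp.notMem_support_iff.1 hj', zero_mul]
  rwa [h3] at h2

end simple

section main

variable {P : Type*} [Field P] {R : Type*} [Ring R] {Λ : Type*}

/-- Adding a combination of the coordinates in `A` to the coordinate `o`. -/
theorem exists_y (b o : Λ) (hob : o ≠ b) (r : Λ → R) (A : Finset Λ) (hoA : o ∉ A) (hbA : b ∉ A) :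
    ∃ y : elemGroup R Λ, Fx b (y : (Λ →₀ R) ≃ₗ[R] (Λ →₀ R)) ∧ ∀ v : Λ →₀ R,
      (y : (Λ →₀ R) ≃ₗ[R] (Λ →₀ R)) v = v + Finsupp.single o (∑ j ∈ A, v j * r j) := by
  classical
  induction A using Finset.induction_on with
  | empty => exact ⟨1, Fx.one b, fun v => by simp⟩
  | insert a A ha ih =>
    obtain ⟨y, hy, hyv⟩ := ih (fun h => hoA (Finset.mem_insert_of_mem h))
      (fun h => hbA (Finset.mem_insert_of_mem h))
    have hoa : o ≠ a := fun h => hoA (h ▸ Finset.mem_insert_self _ _)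
    have hba : b ≠ a := fun h => hbA (h ▸ Finset.mem_insert_self _ _)
    refine ⟨x a (Finsupp.single o (r a)) * y, ?_, fun v => ?_⟩
    · exact (Fx_X hba (Finsupp.single_eq_of_ne hob.symm)).mul hy
    · show (x a (Finsupp.single o (r a)) : (Λ →₀ R) ≃ₗ[R] (Λ →₀ R))
        ((y : (Λ →₀ R) ≃ₗ[R] (Λ →₀ R)) v) = _
      rw [x_apply, hyv, Finsupp.add_apply, Finsupp.single_eq_of_ne hoa.symm, add_zero,
        q_eq (Finsupp.single_eq_of_ne hoa.symm), Finsupp.smul_single, smul_eq_mul,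
        Finset.sum_insert ha, Finsupp.single_add]
      abel

/-- If a product ideal is invariant, the radical contains the augmentation ideal. -/
theorem mon_mem_radical [IsSimpleRing R] [Infinite R] [Infinite Λ] (J : Ideal (CR P R Λ)) (b : Λ)
    (hJb : ∀ c : R, mon P (Finsupp.single b c) - 1 ∈ J) (g₀ : elemGroup R Λ)
    (T : Finset (elemGroup R Λ)) (hg₀ : Fx b (g₀ : (Λ →₀ R) ≃ₗ[R] (Λ →₀ R)))
    (hT : ∀ k ∈ T, Fx b ((k : elemGroup R Λ) : (Λ →₀ R) ≃ₗ[R] (Λ →₀ R)) ∧ k ≠ g₀)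
    (hprod : ∀ v : elemGroup R Λ → Λ →₀ R, (∏ k ∈ T,
        (mon P (((k⁻¹ : elemGroup R Λ) : (Λ →₀ R) ≃ₗ[R] (Λ →₀ R)) (v k) -
          ((g₀⁻¹ : elemGroup R Λ) : (Λ →₀ R) ≃ₗ[R] (Λ →₀ R)) (v k)) - 1)) ∈ J)
    (hinv : ∀ h : elemGroup R Λ, Fx b (h : (Λ →₀ R) ≃ₗ[R] (Λ →₀ R)) →
      ∀ w : elemGroup R Λ → Λ →₀ R, (∏ k ∈ T, (mon P (w k) - 1)) ∈ J →
        (∏ k ∈ T, (mon P ((h : (Λ →₀ R) ≃ₗ[R] (Λ →₀ R)) (w k)) - 1)) ∈ J) :
    ∀ w : Λ →₀ R, mon P w - 1 ∈ J.radical := by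
  classical
  intro w₀
  by_contra hw₀
  obtain ⟨𝔭, hJ𝔭, h𝔭, hw₀⟩ : ∃ 𝔭 : Ideal (CR P R Λ), J ≤ 𝔭 ∧ 𝔭.IsPrime ∧
      mon P w₀ - 1 ∉ 𝔭 := by
    by_contra hcon
    push Not at hcon
    apply hw₀
    rw [Ideal.radical_eq_sInf, Submodule.mem_sInf]
    rintro 𝔭 ⟨h1, h2⟩
    exact hcon 𝔭 h1 h2
  -- the subgroup `M`
  let M : AddSubgroup (Λ →₀ R) :=
    { carrier := {w | mon P w - 1 ∈ 𝔭}
      zero_mem' := by
        show mon P (0 : Λ →₀ R) - 1 ∈ 𝔭
        rw [mon_zero, sub_self]; exact 𝔭.zero_mem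
      add_mem' := by
        intro u v hu hv
        show mon P (u + v) - 1 ∈ 𝔭
        have : mon P (u + v) - 1 = mon P u * (mon P v - 1) + (mon P u - 1) := by
          rw [mon_add]; ring
        rw [this]
        exact 𝔭.add_mem (𝔭.mul_mem_left _ hv) hu
      neg_mem' := by
        intro u hu
        show mon P (-u) - 1 ∈ 𝔭
        have h1 : mon P (-u) * mon P u = 1 := by rw [← mon_add, neg_add_cancel, mon_zero]
        have : mon P (-u) - 1 = -(mon P (-u) * (mon P u - 1)) := by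
          rw [mul_sub, h1]; ring
        rw [this]
        exact 𝔭.neg_mem (𝔭.mul_mem_left _ hu) }
  have hM : ∀ w, w ∈ M ↔ mon P w - 1 ∈ 𝔭 := fun w => Iff.rfl
  -- the largest submodule in `M`
  let N : Submodule R (Λ →₀ R) :=
    { carrier := {w | ∀ c : R, c • w ∈ M}
      zero_mem' := by
        intro c
        rw [smul_zero]; exact M.zero_mem
      add_mem' := by
        intro u v hu hv c
        rw [smul_add]; exact M.add_mem (hu c) (hv c)
      smul_mem' := by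
        intro d u hu c
        rw [smul_smul]; exact hu _ }
  have hN : ∀ w, w ∈ N ↔ ∀ c : R, c • w ∈ M := fun w => Iff.rfl
  let D : elemGroup R Λ → (Λ →₀ R) → (Λ →₀ R) := fun k u =>
    (((k⁻¹ : elemGroup R Λ) : (Λ →₀ R) ≃ₗ[R] (Λ →₀ R)) u -
      ((g₀⁻¹ : elemGroup R Λ) : (Λ →₀ R) ≃ₗ[R] (Λ →₀ R)) u)
  have hDs : ∀ (k : elemGroup R Λ) (c : R) (u : Λ →₀ R), D k (c • u) = c • D k u := by
    intro k c u
    simp only [D, map_smul, smul_sub]
  -- for each `h` some `k` with `h (D k u) ∈ N` for all `u`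
  have h1 : ∀ h : elemGroup R Λ, Fx b (h : (Λ →₀ R) ≃ₗ[R] (Λ →₀ R)) →
      ∃ k ∈ T, ∀ u, (h : (Λ →₀ R) ≃ₗ[R] (Λ →₀ R)) (D k u) ∈ N := by
    intro h hh
    by_contra hcon
    push Not at hcon
    have h2 : ∀ k ∈ T, ∃ u, (h : (Λ →₀ R) ≃ₗ[R] (Λ →₀ R)) (D k u) ∉ M := by
      intro k hk
      obtain ⟨u, hu⟩ := hcon k hk
      rw [hN] at hu
      push Not at hu
      obtain ⟨c, hc⟩ := hu
      refine ⟨c • u, ?_⟩
      rw [hDs, map_smul]; exact hc
    let v : elemGroup R Λ → Λ →₀ R := fun k =>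
      if hk : k ∈ T then (h2 k hk).choose else 0
    have hv : ∀ k ∈ T, (h : (Λ →₀ R) ≃ₗ[R] (Λ →₀ R)) (D k (v k)) ∉ M := by
      intro k hk
      have : v k = (h2 k hk).choose := dif_pos hk
      rw [this]
      exact (h2 k hk).choose_spec
    have h3 := hJ𝔭 (hinv h hh _ (hprod v))
    rw [Ideal.IsPrime.prod_mem_iff] at h3
    obtain ⟨k, hk, hk'⟩ := h3
    exact hv k hk hk'
  -- a basis vector outside `N`
  obtain ⟨i, hi⟩ : ∃ i, Finsupp.single i (1 : R) ∉ N := by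
    by_contra hcon
    push Not at hcon
    apply hw₀
    have h2 : w₀ ∈ N := by
      have h3 : w₀ = w₀.sum fun j c => c • Finsupp.single j (1 : R) := by
        conv_lhs => rw [← Finsupp.sum_single w₀]
        refine Finsupp.sum_congr fun j _ => ?_
        rw [Finsupp.smul_single, smul_eq_mul, mul_one]
      rw [h3]
      exact N.sum_mem fun j _ => N.smul_mem _ (hcon j)
    have h3 := (hN w₀).1 h2 1
    rw [one_smul] at h3
    exact h3
  have hib : i ≠ b := by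
    rintro rfl
    apply hi
    intro c
    rw [Finsupp.smul_single, smul_eq_mul, mul_one]
    exact hJ𝔭 (hJb c)
  -- vectors in the images
  have h4 : ∀ k ∈ T, ∃ u, D k u ≠ 0 := by
    intro k hk
    by_contra hcon
    push Not at hcon
    apply (hT k hk).2
    have h5 : (k⁻¹ : elemGroup R Λ) = g₀⁻¹ := by
      apply Subtype.ext
      apply LinearEquiv.ext
      intro u
      exact sub_eq_zero.1 (hcon u)
    exact inv_injective h5
  choose! u hu using h4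
  have hwb : ∀ k ∈ T, D k (u k) b = 0 := by
    intro k hk
    simp only [D, Finsupp.sub_apply]
    have e1 := (hT k hk).1.inv.coord (u k)
    have e2 := hg₀.inv.coord (u k)
    rw [show ((k⁻¹ : elemGroup R Λ) : (Λ →₀ R) ≃ₗ[R] (Λ →₀ R)) =
      ((k : (Λ →₀ R) ≃ₗ[R] (Λ →₀ R)))⁻¹ from rfl, e1,
      show ((g₀⁻¹ : elemGroup R Λ) : (Λ →₀ R) ≃ₗ[R] (Λ →₀ R)) =
      ((g₀ : (Λ →₀ R) ≃ₗ[R] (Λ →₀ R)))⁻¹ from rfl, e2, sub_self]
  let A : Finset Λ := T.biUnion fun k => (D k (u k)).support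
  have hbA : b ∉ A := by
    intro h
    obtain ⟨k, hk, hk'⟩ := Finset.mem_biUnion.1 h
    exact (Finsupp.mem_support_iff.1 hk') (hwb k hk)
  obtain ⟨o, ho⟩ := Infinite.exists_notMem_finset (A ∪ {b, i})
  simp only [Finset.mem_union, Finset.mem_insert, Finset.mem_singleton, not_or] at ho
  obtain ⟨hoA, hob, hoi⟩ := ho
  have hwo : ∀ k ∈ T, D k (u k) o = 0 := by
    intro k hk
    by_contra hcon
    exact hoA (Finset.mem_biUnion.2 ⟨k, hk, Finsupp.mem_support_iff.2 hcon⟩)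
  -- the element `h₂`
  obtain ⟨h₂, ε, hh₂, hh₂w, hh₂o, hε⟩ : ∃ (h₂ : elemGroup R Λ) (ε : Λ →₀ R),
      Fx b (h₂ : (Λ →₀ R) ≃ₗ[R] (Λ →₀ R)) ∧
      (∀ k ∈ T, (h₂ : (Λ →₀ R) ≃ₗ[R] (Λ →₀ R)) (D k (u k)) = D k (u k)) ∧
      (h₂ : (Λ →₀ R) ≃ₗ[R] (Λ →₀ R)) (Finsupp.single o 1) = ε ∧ ε ∉ N := by
    by_cases heo : Finsupp.single o (1 : R) ∈ N
    · refine ⟨x o (Finsupp.single i 1), _, Fx_X (Ne.symm hob) (Finsupp.single_eq_of_ne hib.symm),
        fun k hk => ?_, rfl, ?_⟩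
      · rw [x_apply, hwo k hk, zero_smul, add_zero]
      · rw [x_apply, Finsupp.single_eq_same, one_smul,
          q_eq (Finsupp.single_eq_of_ne hoi)]
        intro h
        apply hi
        have := N.sub_mem h heo
        rwa [add_sub_cancel_left] at this
    · exact ⟨1, _, Fx.one b, fun k _ => rfl, rfl, heo⟩
  -- the cover
  let 𝔞 : Submodule R R := N.comap (LinearMap.toSpanSingleton R (Λ →₀ R) ε)
  have h𝔞mem : ∀ s : R, s ∈ 𝔞 ↔ s • ε ∈ N := fun s => Iff.rfl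
  have h𝔞 : 𝔞 ≠ ⊤ := by
    intro h
    have : (1 : R) ∈ 𝔞 := by rw [h]; exact Submodule.mem_top
    rw [h𝔞mem, one_smul] at this
    exact hε this
  let s : elemGroup R Λ → (Λ → R) →+ R := fun k =>
    ∑ j ∈ A, (AddMonoidHom.mulLeft (D k (u k) j)).comp (Pi.evalAddMonoidHom (fun _ : Λ => R) j)
  have hs : ∀ k r, s k r = ∑ j ∈ A, D k (u k) j * r j := by
    intro k r
    simp only [s, AddMonoidHom.finsetSum_apply, AddMonoidHom.comp_apply,
      Pi.evalAddMonoidHom_apply, AddMonoidHom.coe_mulLeft]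
  have hs' : ∀ k ∈ T, ∀ r, s k r = (D k (u k)).sum fun j c => c * r j := by
    intro k hk r
    rw [hs, Finsupp.sum]
    symm
    apply Finset.sum_subset
    · intro j hj
      exact Finset.mem_biUnion.2 ⟨k, hk, hj⟩
    · intro j _ hj
      rw [Finsupp.notMem_support_iff.1 hj, zero_mul]
  have h6 : ∀ r : Λ → R, ∃ k ∈ T, D k (u k) + s k r • ε ∈ N := by
    intro r
    obtain ⟨y, hy, hyv⟩ := exists_y b o hob r A hoA hbA
    obtain ⟨k, hk, hk'⟩ := h1 (h₂ * y) (hh₂.mul hy)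
    refine ⟨k, hk, ?_⟩
    have h7 := hk' (u k)
    have h8 : ((h₂ * y : elemGroup R Λ) : (Λ →₀ R) ≃ₗ[R] (Λ →₀ R)) (D k (u k)) =
        D k (u k) + s k r • ε := by
      show (h₂ : (Λ →₀ R) ≃ₗ[R] (Λ →₀ R)) ((y : (Λ →₀ R) ≃ₗ[R] (Λ →₀ R)) (D k (u k))) = _
      rw [hyv, map_add, hh₂w k hk, ← hs]
      congr 1
      have h9 : Finsupp.single o (s k r) = s k r • Finsupp.single o (1 : R) := by
        rw [Finsupp.smul_single, smul_eq_mul, mul_one]
      rw [h9, map_smul, hh₂o]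
    rwa [h8] at h7
  let B : elemGroup R Λ → AddSubgroup (Λ → R) := fun k => 𝔞.toAddSubgroup.comap (s k)
  have hB : ∀ k r, r ∈ B k ↔ s k r ∈ 𝔞 := fun k r => Iff.rfl
  let g : elemGroup R Λ → (Λ → R) := fun k =>
    if h : ∃ r, D k (u k) + s k r • ε ∈ N then h.choose else 0
  have hcov : ⋃ k ∈ T, g k +ᵥ (B k : Set (Λ → R)) = Set.univ := by
    rw [Set.eq_univ_iff_forall]
    intro r
    obtain ⟨k, hk, hk'⟩ := h6 r
    rw [Set.mem_iUnion₂]
    refine ⟨k, hk, ?_⟩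
    rw [mem_leftAddCoset_iff, SetLike.mem_coe, hB]
    have h7 : ∃ r, D k (u k) + s k r • ε ∈ N := ⟨r, hk'⟩
    have h8 : g k = h7.choose := dif_pos h7
    have h9 := h7.choose_spec
    rw [← h8] at h9
    rw [h𝔞mem]
    have h10 := N.sub_mem hk' h9
    have h11 : s k (-g k + r) • ε = (D k (u k) + s k r • ε) - (D k (u k) + s k (g k) • ε) := by
      rw [map_add, map_neg, add_smul, neg_smul]; abel
    rw [h11]; exact h10
  obtain ⟨k, hk, hkf⟩ := AddSubgroup.exists_finiteIndex_of_leftCoset_cover hcov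
  refine not_finiteIndex_sum 𝔞 h𝔞 (hu k hk) (B k) (fun r hr => ?_) hkf
  rw [← hs' k hk]
  exact hr

end main

end Pool.Agent.Helper66.EL
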